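import Mathlib

open Set Metric Filter Topology

namespace Pool.Agent.MP6b3dca

/-- Ekeland-type step of the Bishop–Phelps theorem. -/
theorem bishopPhelps_ekeland {Y : Type*} [NormedAddCommGroup Y] [NormedSpace ℝ Y]
    [CompleteSpace Y] (f : Y →L[ℝ] ℝ) {ε : ℝ} (hε : 0 < ε) :
    ∃ y₀ : Y, ‖y₀‖ ≤ 1 ∧ ∀ y : Y, ‖y‖ ≤ 1 → f y - f y₀ ≤ ε * ‖y - y₀‖ := by
  let S : Y → Set Y := fun x => {y | ‖y‖ ≤ 1 ∧ ε * ‖y - x‖ ≤ f y - f x}
  have hS_self : ∀ x, ‖x‖ ≤ 1 → x ∈ S x := fun x hx => ⟨hx, by simp⟩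
  have hS_trans : ∀ x y z, y ∈ S x → z ∈ S y → z ∈ S x := by
    rintro x y z ⟨hy, hxy⟩ ⟨hz, hyz⟩
    refine ⟨hz, ?_⟩
    have h1 : ‖z - x‖ ≤ ‖z - y‖ + ‖y - x‖ := norm_sub_le_norm_sub_add_norm_sub z y x
    nlinarith
  have hbdd : ∀ y, ‖y‖ ≤ 1 → f y ≤ ‖f‖ := by
    intro y hy
    calc f y ≤ ‖f y‖ := Real.le_norm_self _
      _ ≤ ‖f‖ * ‖y‖ := f.le_opNorm y
      _ ≤ ‖f‖ * 1 := by gcongr
      _ = ‖f‖ := mul_one _
  have hnext : ∀ x : {x : Y // ‖x‖ ≤ 1}, ∀ δ : ℝ, 0 < δ →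
      ∃ y : {y : Y // ‖y‖ ≤ 1}, y.1 ∈ S x.1 ∧ ∀ z ∈ S x.1, f z ≤ f y.1 + δ := by
    intro x δ hδ
    have hne : (f '' S x.1).Nonempty := ⟨_, mem_image_of_mem _ (hS_self x.1 x.2)⟩
    have hb : BddAbove (f '' S x.1) := by
      refine ⟨‖f‖, ?_⟩
      rintro _ ⟨y, hy, rfl⟩
      exact hbdd y hy.1
    obtain ⟨_, ⟨y, hy, rfl⟩, hlt⟩ := exists_lt_of_lt_csSup hne
      (show sSup (f '' S x.1) - δ < sSup (f '' S x.1) by linarith)
    refine ⟨⟨y, hy.1⟩, hy, fun z hz => ?_⟩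
    have := le_csSup hb (mem_image_of_mem f hz)
    show f z ≤ f y + δ
    linarith
  choose! nxt hnxt1 hnxt2 using hnext
  let u : ℕ → {x : Y // ‖x‖ ≤ 1} := fun n =>
    Nat.rec ⟨0, by simp⟩ (fun n x => nxt x ((1 / 2 : ℝ) ^ n)) n
  have hu : ∀ n, u (n + 1) = nxt (u n) ((1 / 2 : ℝ) ^ n) := fun n => rfl
  have hδ : ∀ n : ℕ, (0 : ℝ) < (1 / 2 : ℝ) ^ n := fun n => by positivity
  have hstep : ∀ n, (u (n + 1)).1 ∈ S (u n).1 := fun n => by
    rw [hu]; exact hnxt1 _ _ (hδ n)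
  have hmem : ∀ n m, n ≤ m → (u m).1 ∈ S (u n).1 := by
    intro n m hnm
    induction m, hnm using Nat.le_induction with
    | base => exact hS_self _ (u n).2
    | succ m _ ih => exact hS_trans _ _ _ ih (hstep m)
  have hmono : Monotone (fun n => f (u n).1) := by
    refine monotone_nat_of_le_succ fun n => ?_
    have h1 := (hstep n).2
    have h2 : 0 ≤ ε * ‖(u (n + 1)).1 - (u n).1‖ := by positivity
    linarith
  have hbd : BddAbove (range fun n => f (u n).1) := ⟨‖f‖, by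
    rintro _ ⟨n, rfl⟩; exact hbdd _ (u n).2⟩
  have hconv := tendsto_atTop_ciSup hmono hbd
  have hcau : CauchySeq (fun n => f (u n).1) := hconv.cauchySeq
  have hcau' : CauchySeq (fun n => (u n).1) := by
    rw [Metric.cauchySeq_iff'] at hcau ⊢
    intro η hη
    obtain ⟨N, hN⟩ := hcau (ε * η) (by positivity)
    refine ⟨N, fun n hn => ?_⟩
    have h1 := (hmem N n hn).2
    have h2 := hN n hn
    rw [Real.dist_eq] at h2
    have h3 := le_abs_self (f (u n).1 - f (u N).1)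
    rw [dist_eq_norm]
    have h4 : ε * ‖(u n).1 - (u N).1‖ < ε * η := by linarith
    exact lt_of_mul_lt_mul_left h4 hε.le
  obtain ⟨y₀, hy₀⟩ := cauchySeq_tendsto_of_complete hcau'
  have hf₀ : Tendsto (fun n => f (u n).1) atTop (𝓝 (f y₀)) :=
    (f.continuous.tendsto _).comp hy₀
  have hy₀1 : ‖y₀‖ ≤ 1 := le_of_tendsto hy₀.norm (Eventually.of_forall fun n => (u n).2)
  have hy₀S : ∀ n, y₀ ∈ S (u n).1 := by
    intro n
    refine ⟨hy₀1, ?_⟩
    have h1 : Tendsto (fun m => ε * ‖(u m).1 - (u n).1‖) atTop (𝓝 (ε * ‖y₀ - (u n).1‖)) :=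
      ((hy₀.sub_const _).norm).const_mul _
    have h2 : Tendsto (fun m => f (u m).1 - f (u n).1) atTop (𝓝 (f y₀ - f (u n).1)) :=
      hf₀.sub_const _
    exact le_of_tendsto_of_tendsto h1 h2
      ((eventually_ge_atTop n).mono fun m hm => (hmem n m hm).2)
  refine ⟨y₀, hy₀1, fun z hz => ?_⟩
  by_contra hcon
  rw [not_le] at hcon
  have hzS : z ∈ S y₀ := ⟨hz, hcon.le⟩
  have h1 : ∀ n, f z ≤ f (u (n + 1)).1 + (1 / 2 : ℝ) ^ n := by
    intro n
    have := hnxt2 (u n) _ (hδ n) z (hS_trans _ _ _ (hy₀S n) hzS)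
    rwa [← hu] at this
  have h2 : Tendsto (fun n => f (u (n + 1)).1 + (1 / 2 : ℝ) ^ n) atTop (𝓝 (f y₀ + 0)) :=
    ((tendsto_add_atTop_iff_nat 1).2 hf₀).add
      (tendsto_pow_atTop_nhds_zero_of_lt_one (by norm_num) (by norm_num))
  have h3 : f z ≤ f y₀ + 0 := ge_of_tendsto' h2 h1
  have h4 : 0 ≤ ε * ‖z - y₀‖ := by positivity
  linarith

/-- **Bishop–Phelps theorem**: the norm attaining functionals on a real Banach space are dense. -/
theorem bishopPhelps {Y : Type*} [NormedAddCommGroup Y] [NormedSpace ℝ Y] [CompleteSpace Y]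
    (f : Y →L[ℝ] ℝ) {ε : ℝ} (hε : 0 < ε) :
    ∃ g : Y →L[ℝ] ℝ, ‖g - f‖ ≤ ε ∧ ∃ y : Y, ‖y‖ ≤ 1 ∧ g y = ‖g‖ := by
  obtain ⟨y₀, hy₀, hmax⟩ := bishopPhelps_ekeland f hε
  -- separation of two convex subsets of `Y × ℝ`
  have hconv1 : ConcaveOn ℝ (closedBall (0 : Y) 1) (fun y => f y - f y₀) := by
    refine ⟨convex_closedBall _ _, fun x _ y _ a b _ _ hab => ?_⟩
    have : f (a • x + b • y) = a * f x + b * f y := by simp
    simp only [smul_eq_mul, this]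
    obtain rfl : b = 1 - a := by linarith
    apply le_of_eq; ring
  have hconv2 : ConvexOn ℝ (univ : Set Y) (fun y => ε * ‖y - y₀‖) := by
    refine ⟨convex_univ, fun x _ y _ a b ha hb hab => ?_⟩
    have h1 : a • x + b • y - y₀ = a • (x - y₀) + b • (y - y₀) := by
      rw [smul_sub, smul_sub]
      have : y₀ = a • y₀ + b • y₀ := by rw [← add_smul, hab, one_smul]
      nth_rewrite 1 [this]
      abel
    have h2 : ‖a • x + b • y - y₀‖ ≤ a * ‖x - y₀‖ + b * ‖y - y₀‖ := by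
      rw [h1]
      refine (norm_add_le _ _).trans ?_
      rw [norm_smul, norm_smul, Real.norm_of_nonneg ha, Real.norm_of_nonneg hb]
    simp only [smul_eq_mul]
    nlinarith
  have hC1 := hconv1.convex_hypograph
  have hC2 := hconv2.convex_strict_epigraph
  have hopen : IsOpen {p : Y × ℝ | p.1 ∈ (univ : Set Y) ∧ ε * ‖p.1 - y₀‖ < p.2} := by
    simp only [mem_univ, true_and]
    exact isOpen_lt (by fun_prop) (by fun_prop)
  have hdisj : Disjoint {p : Y × ℝ | p.1 ∈ (univ : Set Y) ∧ ε * ‖p.1 - y₀‖ < p.2}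
      {p : Y × ℝ | p.1 ∈ closedBall (0 : Y) 1 ∧ p.2 ≤ f p.1 - f y₀} := by
    rw [Set.disjoint_left]
    rintro ⟨y, s⟩ ⟨-, h1⟩ ⟨h2, h3⟩
    have := hmax y (by simpa using h2)
    simp only at h1 h3
    linarith
  obtain ⟨F, u, hF1, hF2⟩ := geometric_hahn_banach_open hC2 hopen hC1 hdisj
  let g₁ : Y →L[ℝ] ℝ := F.comp (ContinuousLinearMap.inl ℝ Y ℝ)
  let c : ℝ := F (0, 1)
  have hFeq : ∀ y s, F (y, s) = g₁ y + c * s := by
    intro y s
    have : (y, s) = (y, (0 : ℝ)) + s • ((0 : Y), (1 : ℝ)) := by simp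
    rw [this, map_add, map_smul]
    simp [g₁, c, mul_comm]
  have hy₀C1 : u ≤ g₁ y₀ := by
    have := hF2 (y₀, 0) ⟨by simpa using hy₀, by simp⟩
    rwa [hFeq, mul_zero, add_zero] at this
  have hC2' : ∀ y : Y, ∀ s : ℝ, ε * ‖y - y₀‖ < s → g₁ y + c * s < u := by
    intro y s hs
    have := hF1 (y, s) ⟨mem_univ _, hs⟩
    rwa [hFeq] at this
  have hC2'' : ∀ y : Y, g₁ y + c * (ε * ‖y - y₀‖) ≤ u := by
    intro y
    have h1 : Tendsto (fun s : ℝ => g₁ y + c * s) (𝓝[>] (ε * ‖y - y₀‖))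
        (𝓝 (g₁ y + c * (ε * ‖y - y₀‖))) :=
      ((continuous_const.add (continuous_const.mul continuous_id)).tendsto _).mono_left
        nhdsWithin_le_nhds
    exact le_of_tendsto h1 (eventually_nhdsWithin_of_forall fun s hs => (hC2' y s hs).le)
  have hc : c < 0 := by
    have h1 := hC2' y₀ 1 (by simp)
    linarith
  have hug : g₁ y₀ = u := by
    refine le_antisymm ?_ hy₀C1
    have := hC2'' y₀
    simpa using this
  have hC1' : ∀ y : Y, ‖y‖ ≤ 1 → u ≤ g₁ y + c * (f y - f y₀) := by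
    intro y hy
    have := hF2 (y, f y - f y₀) ⟨by simpa using hy, le_rfl⟩
    rwa [hFeq] at this
  let h : Y →L[ℝ] ℝ := (-c)⁻¹ • g₁
  have hh : ∀ y, h y = (-c)⁻¹ * g₁ y := fun y => by simp [h]
  have hc' : 0 < (-c)⁻¹ := inv_pos.2 (by linarith)
  have hcc : (-c)⁻¹ * (-c) = 1 := inv_mul_cancel₀ (by linarith)
  have hhle : ∀ v : Y, h v ≤ ε * ‖v‖ := by
    intro v
    have h1 := hC2'' (y₀ + v)
    rw [add_sub_cancel_left, map_add, hug] at h1
    have h2 : g₁ v ≤ (-c) * (ε * ‖v‖) := by linarith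
    rw [hh]
    calc (-c)⁻¹ * g₁ v ≤ (-c)⁻¹ * ((-c) * (ε * ‖v‖)) := by gcongr
      _ = ε * ‖v‖ := by rw [← mul_assoc, hcc, one_mul]
  have hhnorm : ‖h‖ ≤ ε := by
    refine h.opNorm_le_bound hε.le fun v => ?_
    rw [Real.norm_eq_abs, abs_le]
    refine ⟨?_, hhle v⟩
    have := hhle (-v)
    rw [map_neg, norm_neg] at this
    linarith
  have hhsup : ∀ y : Y, ‖y‖ ≤ 1 → f y - h y ≤ f y₀ - h y₀ := by
    intro y hy
    have h1 := hC1' y hy
    rw [← hug] at h1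
    have h2 : (-c) * (f y - f y₀) ≤ g₁ y - g₁ y₀ := by linarith
    have h3 : (-c)⁻¹ * ((-c) * (f y - f y₀)) ≤ (-c)⁻¹ * (g₁ y - g₁ y₀) := by gcongr
    rw [← mul_assoc, hcc, one_mul] at h3
    rw [hh, hh]
    linarith
  refine ⟨f - h, ?_, y₀, hy₀, ?_⟩
  · rw [sub_sub_cancel_left, norm_neg]
    exact hhnorm
  · apply le_antisymm
    · calc (f - h) y₀ ≤ ‖(f - h) y₀‖ := Real.le_norm_self _
        _ ≤ ‖f - h‖ * ‖y₀‖ := (f - h).le_opNorm y₀
        _ ≤ ‖f - h‖ * 1 := by gcongr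
        _ = ‖f - h‖ := mul_one _
    · have hnn : 0 ≤ (f - h) y₀ := by
        have := hhsup 0 (by simp)
        simpa using this
      refine (f - h).opNorm_le_of_unit_norm hnn fun y hy => ?_
      rw [Real.norm_eq_abs, abs_le]
      constructor
      · have := hhsup (-y) (by rw [norm_neg, hy])
        simp only [map_neg] at this
        show -((f - h) y₀) ≤ f y - h y
        have h1 : (f - h) y₀ = f y₀ - h y₀ := rfl
        linarith
      · exact hhsup y hy.le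

end Pool.Agent.MP6b3dca
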