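import Mathlib

/-!
The `ℓ₁` norm on finitely supported sequences and James' non-distortion argument for seminorms.
-/

set_option autoImplicit false

namespace Pool.Agent.MP6b3dca

open Finset

/-- The `ℓ₁` norm of a finitely supported sequence. -/
noncomputable def N (a : ℕ →₀ ℝ) : ℝ := a.sum fun _ r => |r|

theorem N_nonneg (a : ℕ →₀ ℝ) : 0 ≤ N a := Finset.sum_nonneg fun _ _ => abs_nonneg _

theorem N_zero : N 0 = 0 := Finsupp.sum_zero_index

theorem N_eq_sum {a : ℕ →₀ ℝ} {s : Finset ℕ} (h : a.support ⊆ s) : N a = ∑ k ∈ s, |a k| :=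
  Finsupp.sum_of_support_subset _ h _ (fun _ _ => abs_zero)

theorem N_smul (c : ℝ) (a : ℕ →₀ ℝ) : N (c • a) = |c| * N a := by
  rw [N_eq_sum (Finsupp.support_smul (b := c) (g := a)), N_eq_sum (Finset.Subset.refl _),
    Finset.mul_sum]
  exact Finset.sum_congr rfl fun k _ => by simp [abs_mul]

theorem N_neg (a : ℕ →₀ ℝ) : N (-a) = N a := by
  have := N_smul (-1) a
  simpa using this

theorem N_add_le (a b : ℕ →₀ ℝ) : N (a + b) ≤ N a + N b := by
  classical
  rw [N_eq_sum (s := a.support ∪ b.support) Finsupp.support_add,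
    N_eq_sum (a := a) (s := a.support ∪ b.support) Finset.subset_union_left,
    N_eq_sum (a := b) (s := a.support ∪ b.support) Finset.subset_union_right,
    ← Finset.sum_add_distrib]
  exact Finset.sum_le_sum fun k _ => abs_add_le _ _

theorem N_add_of_disjoint {a b : ℕ →₀ ℝ} (h : ∀ k, a k = 0 ∨ b k = 0) :
    N (a + b) = N a + N b := by
  apply Finsupp.sum_add_index_of_disjoint
  rw [Finset.disjoint_left]
  intro k ha hb
  rw [Finsupp.mem_support_iff] at ha hb
  exact (h k).elim ha hb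

theorem N_eq_zero {a : ℕ →₀ ℝ} (h : N a = 0) : a = 0 := by
  rw [N_eq_sum (Finset.Subset.refl _), Finset.sum_eq_zero_iff_of_nonneg
    (fun _ _ => abs_nonneg _)] at h
  ext k
  by_cases hk : k ∈ a.support
  · simpa using h k hk
  · simpa using hk

/-- A subspace of finitely supported sequences with elements supported arbitrarily far out. -/
def Far (V : Submodule ℝ (ℕ →₀ ℝ)) : Prop := ∀ m : ℕ, ∃ a ∈ V, N a = 1 ∧ ∀ k < m, a k = 0

theorem far_top : Far ⊤ := fun m =>
  ⟨Finsupp.single m 1, Submodule.mem_top, by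
    rw [N, Finsupp.sum_single_index abs_zero, abs_one], fun k hk => by
    rw [Finsupp.single_apply, if_neg (by omega)]⟩

/-- A function which behaves like a seminorm bounded by twice the `ℓ₁` norm. -/
structure Wid (ω : (ℕ →₀ ℝ) → ℝ) : Prop where
  nonneg : ∀ a, 0 ≤ ω a
  le : ∀ a, ω a ≤ 2 * N a
  add : ∀ a b, ω (a + b) ≤ ω a + ω b
  smul : ∀ (c : ℝ) a, ω (c • a) = |c| * ω a

theorem Wid.sum_le {ω : (ℕ →₀ ℝ) → ℝ} (h : Wid ω) (a : ℕ → ℕ →₀ ℝ) (c : ℕ → ℝ) {C : ℝ}
    (hC : ∀ k, ω (a k) ≤ C) (n : ℕ) :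
    ω (∑ k ∈ range n, c k • a k) ≤ C * ∑ k ∈ range n, |c k| := by
  induction n with
  | zero =>
    have := h.smul 0 0
    simp at this
    simp [this]
  | succ n ih =>
    rw [Finset.sum_range_succ, Finset.sum_range_succ]
    calc ω (∑ k ∈ range n, c k • a k + c n • a n)
        ≤ ω (∑ k ∈ range n, c k • a k) + ω (c n • a n) := h.add _ _
      _ ≤ C * ∑ k ∈ range n, |c k| + |c n| * C := by
        rw [h.smul]
        gcongr
        exact hC n
      _ = C * (∑ k ∈ range n, |c k| + |c n|) := by ring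

/-- Block sequences are `ℓ₁` sequences. -/
theorem block_sum {a : ℕ → ℕ →₀ ℝ} {m : ℕ → ℕ} (hm : ∀ k, m k ≤ m (k + 1))
    (hlow : ∀ k j, j < m k → a k j = 0) (hup : ∀ k j, m (k + 1) ≤ j → a k j = 0)
    (hN : ∀ k, N (a k) = 1) (c : ℕ → ℝ) (n : ℕ) :
    (∀ j, m n ≤ j → (∑ k ∈ range n, c k • a k) j = 0) ∧
    (∀ j, j < m 0 → (∑ k ∈ range n, c k • a k) j = 0) ∧
    N (∑ k ∈ range n, c k • a k) = ∑ k ∈ range n, |c k| := by
  have hmono : Monotone m := monotone_nat_of_le_succ hm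
  induction n with
  | zero => simp [N_zero]
  | succ n ih =>
    obtain ⟨h1, h2, h3⟩ := ih
    refine ⟨fun j hj => ?_, fun j hj => ?_, ?_⟩
    · rw [Finset.sum_range_succ, Finsupp.add_apply, h1 j ((hm n).trans hj), Finsupp.smul_apply,
        hup n j hj]
      simp
    · rw [Finset.sum_range_succ, Finsupp.add_apply, h2 j hj, Finsupp.smul_apply,
        hlow n j (hj.trans_le (hmono (Nat.zero_le n)))]
      simp
    · rw [Finset.sum_range_succ, Finset.sum_range_succ, N_add_of_disjoint, h3, N_smul, hN, mul_one]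
      intro j
      rcases lt_or_ge j (m n) with hj | hj
      · right
        rw [Finsupp.smul_apply, hlow n j hj, smul_zero]
      · left
        exact h1 j hj

/-- James' non-distortion argument: a seminorm dominated by the `ℓ₁` norm is almost a multiple of
the `ℓ₁` norm on some block subspace. -/
theorem james {V : Submodule ℝ (ℕ →₀ ℝ)} (hV : Far V) {ω : (ℕ →₀ ℝ) → ℝ} (hω : Wid ω) {δ : ℝ}
    (hδ : 0 < δ) :
    ∃ V' ≤ V, Far V' ∧ ∃ w : ℝ, ∀ a ∈ V', |ω a - w * N a| ≤ δ * N a := by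
  classical
  set D : ℕ → Set (ℕ →₀ ℝ) := fun m => {a | a ∈ V ∧ N a = 1 ∧ ∀ k < m, a k = 0} with hD
  have hDne : ∀ m, (ω '' D m).Nonempty := fun m => by
    obtain ⟨a, ha, h1, h2⟩ := hV m
    exact ⟨ω a, a, ⟨ha, h1, h2⟩, rfl⟩
  have hDbdd : ∀ m, BddBelow (ω '' D m) := fun m => ⟨0, by
    rintro _ ⟨a, _, rfl⟩
    exact hω.nonneg a⟩
  set I : ℕ → ℝ := fun m => sInf (ω '' D m) with hI
  have hI2 : ∀ m, I m ≤ 2 := fun m => by
    obtain ⟨a, ha, h1, h2⟩ := hV m
    calc I m ≤ ω a := csInf_le (hDbdd m) ⟨a, ⟨ha, h1, h2⟩, rfl⟩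
      _ ≤ 2 * N a := hω.le a
      _ = 2 := by rw [h1, mul_one]
  have hIbdd : BddAbove (Set.range I) := ⟨2, by
    rintro _ ⟨m, rfl⟩
    exact hI2 m⟩
  set w : ℝ := ⨆ m, I m with hw
  obtain ⟨m0, hm0⟩ : ∃ m0, w - δ < I m0 := exists_lt_of_lt_ciSup (by linarith)
  have hF : ∀ m, ∃ a, a ∈ D m ∧ ω a < w + δ := fun m => by
    have h1 : sInf (ω '' D m) < w + δ := by
      have : I m ≤ w := le_ciSup hIbdd m
      change I m < w + δ
      linarith
    obtain ⟨_, ⟨a, ha, rfl⟩, h2⟩ := exists_lt_of_csInf_lt (hDne m) h1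
    exact ⟨a, ha, h2⟩
  choose F hFD hFω using hF
  set next : ℕ → ℕ := fun m => max (m + 1) ((F m).support.sup id + 1) with hnext
  set ms : ℕ → ℕ := fun k => next^[k] m0 with hms
  have hms0 : ms 0 = m0 := rfl
  have hmss : ∀ k, ms (k + 1) = next (ms k) := fun k => by
    simp only [hms]
    rw [Function.iterate_succ_apply']
  have hlt : ∀ k, ms k < ms (k + 1) := fun k => by
    rw [hmss]
    exact lt_of_lt_of_le (Nat.lt_succ_self _) (le_max_left _ _)
  have hle : ∀ k, ms k ≤ ms (k + 1) := fun k => (hlt k).le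
  have hge : ∀ k, k ≤ ms k := fun k => (strictMono_nat_of_lt_succ hlt).le_apply
  set a : ℕ → ℕ →₀ ℝ := fun k => F (ms k) with ha
  have hlow : ∀ k j, j < ms k → a k j = 0 := fun k j hj => (hFD (ms k)).2.2 j hj
  have hup : ∀ k j, ms (k + 1) ≤ j → a k j = 0 := fun k j hj => by
    by_contra hne
    have h1 : j ∈ (F (ms k)).support := Finsupp.mem_support_iff.mpr hne
    have h2 : j ≤ (F (ms k)).support.sup id := Finset.le_sup (f := id) h1
    have h3 : (F (ms k)).support.sup id + 1 ≤ ms (k + 1) := by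
      rw [hmss]
      exact le_max_right _ _
    omega
  have hN1 : ∀ k, N (a k) = 1 := fun k => (hFD (ms k)).2.1
  have hsum := fun (c : ℕ → ℝ) n => block_sum hle hlow hup hN1 c n
  refine ⟨Submodule.span ℝ (Set.range a), ?_, ?_, w, ?_⟩
  · rw [Submodule.span_le]
    rintro _ ⟨k, rfl⟩
    exact (hFD (ms k)).1
  · intro m
    exact ⟨a m, Submodule.subset_span ⟨m, rfl⟩, hN1 m, fun k hk =>
      hlow m k (hk.trans_le (hge m))⟩
  · intro b hb
    have hbV : b ∈ V := by
      have : Submodule.span ℝ (Set.range a) ≤ V := by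
        rw [Submodule.span_le]
        rintro _ ⟨k, rfl⟩
        exact (hFD (ms k)).1
      exact this hb
    obtain ⟨c, hc⟩ := (Finsupp.mem_span_range_iff_exists_finsupp).mp hb
    have hc' : b = ∑ k ∈ range (c.support.sup id + 1), c k • a k := by
      rw [← hc]
      refine Finsupp.sum_of_support_subset _ (fun k hk => ?_) _ (fun k _ => zero_smul _ _)
      rw [Finset.mem_range]
      have : k ≤ c.support.sup id := Finset.le_sup (f := id) hk
      omega
    obtain ⟨-, h2, h3⟩ := hsum c (c.support.sup id + 1)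
    rw [← hc'] at h2 h3
    have hupper : ω b ≤ (w + δ) * N b := by
      rw [h3, hc']
      exact hω.sum_le a c (fun k => (hFω (ms k)).le) _
    have hlower : (w - δ) * N b ≤ ω b := by
      rcases eq_or_ne (N b) 0 with h0 | h0
      · rw [h0, mul_zero]
        exact hω.nonneg b
      · have hpos : 0 < N b := lt_of_le_of_ne (N_nonneg b) (Ne.symm h0)
        have hmem : (N b)⁻¹ • b ∈ D m0 := by
          refine ⟨V.smul_mem _ hbV, ?_, fun k hk => ?_⟩
          · rw [N_smul, abs_of_pos (inv_pos.mpr hpos), inv_mul_cancel₀ h0]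
          · rw [Finsupp.smul_apply, h2 k (by rw [hms0]; exact hk), smul_zero]
        have h4 : I m0 ≤ ω ((N b)⁻¹ • b) := csInf_le (hDbdd m0) ⟨_, hmem, rfl⟩
        rw [hω.smul, abs_of_pos (inv_pos.mpr hpos)] at h4
        have h5 : w - δ ≤ (N b)⁻¹ * ω b := hm0.le.trans h4
        calc (w - δ) * N b ≤ ((N b)⁻¹ * ω b) * N b := by gcongr
          _ = ω b := by field_simp
    rw [abs_le]
    constructor <;> nlinarith

/-- James' argument for finitely many seminorms. -/
theorem james_finite {ι : Type*} (G : Finset ι) {V : Submodule ℝ (ℕ →₀ ℝ)} (hV : Far V)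
    {ω : ι → (ℕ →₀ ℝ) → ℝ} (hω : ∀ g, Wid (ω g)) {δ : ℝ} (hδ : 0 < δ) :
    ∃ V' ≤ V, Far V' ∧ ∀ g ∈ G, ∃ w : ℝ, ∀ a ∈ V', |ω g a - w * N a| ≤ δ * N a := by
  classical
  induction G using Finset.induction_on with
  | empty => exact ⟨V, le_rfl, hV, by simp⟩
  | insert g G _ ih =>
    obtain ⟨V1, hV1, hfar1, h1⟩ := ih
    obtain ⟨V2, hV2, hfar2, w, hw⟩ := james hfar1 (hω g) hδ
    refine ⟨V2, hV2.trans hV1, hfar2, fun g' hg' => ?_⟩
    rcases Finset.mem_insert.mp hg' with rfl | hg'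
    · exact ⟨w, hw⟩
    · obtain ⟨w', hw'⟩ := h1 g' hg'
      exact ⟨w', fun a ha => hw' a (hV2 ha)⟩

end Pool.Agent.MP6b3dca
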