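import Mathlib
import Pool.Agent.MP6b3dca.L1

/-!
Support functions of subsets of the dual ball on finitely supported combinations of a sequence,
and the stabilisation of these functions for all cells of the dual ball.
-/

set_option autoImplicit false

namespace Pool.Agent.MP6b3dca

open Finset Filter Topology
open scoped Pointwise

variable {X : Type*} [NormedAddCommGroup X] [NormedSpace ℝ X]

/-- The vector with coefficients `a` with respect to the sequence `e`. -/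
noncomputable def comb (e : ℕ → X) : (ℕ →₀ ℝ) →ₗ[ℝ] X := Finsupp.linearCombination ℝ e

theorem comb_single (e : ℕ → X) (k : ℕ) (r : ℝ) : comb e (Finsupp.single k r) = r • e k := by
  simp [comb]

theorem norm_comb_le {e : ℕ → X} (he : ∀ k, ‖e k‖ ≤ 1) (a : ℕ →₀ ℝ) : ‖comb e a‖ ≤ N a := by
  rw [comb, Finsupp.linearCombination_apply, Finsupp.sum, N, Finsupp.sum]
  refine (norm_sum_le _ _).trans (Finset.sum_le_sum fun k _ => ?_)
  rw [norm_smul, Real.norm_eq_abs]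
  calc |a k| * ‖e k‖ ≤ |a k| * 1 := by gcongr; exact he k
    _ = |a k| := mul_one _

/-- The support function of a set `R` of functionals, on combinations of `e`. -/
noncomputable def hs (e : ℕ → X) (R : Set (StrongDual ℝ X)) (a : ℕ →₀ ℝ) : ℝ :=
  sSup ((fun y : StrongDual ℝ X => y (comb e a)) '' R)

section hs

variable {e : ℕ → X} {R : Set (StrongDual ℝ X)}

theorem apply_comb_le (he : ∀ k, ‖e k‖ ≤ 1) {y : StrongDual ℝ X} (hy : ‖y‖ ≤ 1) (a : ℕ →₀ ℝ) :
    y (comb e a) ≤ N a := by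
  calc y (comb e a) ≤ ‖y (comb e a)‖ := le_abs_self _
    _ ≤ ‖y‖ * ‖comb e a‖ := y.le_opNorm _
    _ ≤ 1 * N a := by
      gcongr
      exact norm_comb_le he a
    _ = N a := one_mul _

theorem hs_bddAbove (he : ∀ k, ‖e k‖ ≤ 1) (hR : ∀ y ∈ R, ‖y‖ ≤ 1) (a : ℕ →₀ ℝ) :
    BddAbove ((fun y : StrongDual ℝ X => y (comb e a)) '' R) := by
  refine ⟨N a, ?_⟩
  rintro _ ⟨y, hy, rfl⟩
  exact apply_comb_le he (hR y hy) a

theorem le_hs (he : ∀ k, ‖e k‖ ≤ 1) (hR : ∀ y ∈ R, ‖y‖ ≤ 1) {y : StrongDual ℝ X} (hy : y ∈ R)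
    (a : ℕ →₀ ℝ) : y (comb e a) ≤ hs e R a :=
  le_csSup (hs_bddAbove he hR a) ⟨y, hy, rfl⟩

theorem hs_le_N (he : ∀ k, ‖e k‖ ≤ 1) (hR : ∀ y ∈ R, ‖y‖ ≤ 1) (a : ℕ →₀ ℝ) : hs e R a ≤ N a := by
  refine Real.sSup_le ?_ (N_nonneg a)
  rintro _ ⟨y, hy, rfl⟩
  exact apply_comb_le he (hR y hy) a

theorem exists_near_hs (hRne : R.Nonempty) (a : ℕ →₀ ℝ) {s : ℝ} (hs0 : 0 < s) :
    ∃ y ∈ R, hs e R a - s < y (comb e a) := by
  obtain ⟨_, ⟨y, hy, rfl⟩, h⟩ := exists_lt_of_lt_csSup (hRne.image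
    (fun y : StrongDual ℝ X => y (comb e a))) (show hs e R a - s < hs e R a by linarith)
  exact ⟨y, hy, h⟩

theorem hs_add_le (he : ∀ k, ‖e k‖ ≤ 1) (hR : ∀ y ∈ R, ‖y‖ ≤ 1) (a b : ℕ →₀ ℝ) :
    hs e R (a + b) ≤ hs e R a + hs e R b := by
  rcases R.eq_empty_or_nonempty with h | h
  · simp [hs, h]
  · refine csSup_le (h.image _) ?_
    rintro _ ⟨y, hy, rfl⟩
    simp only [map_add]
    exact add_le_add (le_hs he hR hy a) (le_hs he hR hy b)

theorem hs_smul {c : ℝ} (hc : 0 ≤ c) (a : ℕ →₀ ℝ) : hs e R (c • a) = c * hs e R a := by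
  have h : (fun y : StrongDual ℝ X => y (comb e (c • a))) '' R =
      c • ((fun y : StrongDual ℝ X => y (comb e a)) '' R) := by
    ext t
    simp only [Set.mem_image, Set.mem_smul_set, map_smul, smul_eq_mul]
    constructor
    · rintro ⟨y, hy, rfl⟩
      exact ⟨_, ⟨y, hy, rfl⟩, rfl⟩
    · rintro ⟨_, ⟨y, hy, rfl⟩, rfl⟩
      exact ⟨y, hy, rfl⟩
  rw [hs, h, Real.sSup_smul_of_nonneg hc]
  rfl

theorem hs_zero : hs e R 0 = 0 := by
  have := hs_smul (e := e) (R := R) (le_refl (0 : ℝ)) 0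
  simpa using this

/-- The width function. -/
noncomputable def wid (e : ℕ → X) (R : Set (StrongDual ℝ X)) (a : ℕ →₀ ℝ) : ℝ :=
  hs e R a + hs e R (-a)

theorem wid_wid (he : ∀ k, ‖e k‖ ≤ 1) (hR : ∀ y ∈ R, ‖y‖ ≤ 1) : Wid (wid e R) where
  nonneg a := by
    have := hs_add_le he hR a (-a)
    rw [add_neg_cancel, hs_zero] at this
    exact this
  le a := by
    have h1 := hs_le_N he hR a
    have h2 := hs_le_N he hR (-a)
    rw [N_neg] at h2
    rw [wid]
    linarith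
  add a b := by
    have h1 := hs_add_le he hR a b
    have h2 := hs_add_le he hR (-a) (-b)
    rw [wid, wid, wid, neg_add]
    linarith
  smul c a := by
    rcases le_total 0 c with hc | hc
    · rw [wid, wid, hs_smul hc, ← smul_neg, hs_smul hc, abs_of_nonneg hc]
      ring
    · have h1 : c • a = (-c) • (-a) := by rw [smul_neg, neg_smul, neg_neg]
      have h2 : -(c • a) = (-c) • a := by rw [neg_smul]
      rw [wid, wid, h2, h1, hs_smul (neg_nonneg.mpr hc), hs_smul (neg_nonneg.mpr hc),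
        abs_of_nonpos hc]
      ring

/-- If the width is almost a multiple of the `ℓ₁` norm then the support function is almost
additive on disjoint vectors. -/
theorem hs_additive {V : Submodule ℝ (ℕ →₀ ℝ)} {w δ : ℝ}
    (hw : ∀ a ∈ V, |wid e R a - w * N a| ≤ δ * N a) {a b : ℕ →₀ ℝ} (ha : a ∈ V) (hb : b ∈ V)
    (hab : N (a + b) = N a + N b) (he : ∀ k, ‖e k‖ ≤ 1) (hR : ∀ y ∈ R, ‖y‖ ≤ 1) :
    hs e R a + hs e R b - 2 * δ * N (a + b) ≤ hs e R (a + b) := by
  have h1 := abs_le.mp (hw a ha)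
  have h2 := abs_le.mp (hw b hb)
  have h3 := abs_le.mp (hw (a + b) (V.add_mem ha hb))
  have h4 := hs_add_le he hR (-a) (-b)
  rw [← neg_add] at h4
  simp only [wid] at h1 h2 h3
  rw [hab] at h3 ⊢
  nlinarith [h1.1, h1.2, h2.1, h2.2, h3.1, h3.2]

end hs

/-- The code of a functional: approximate values at `e 0, ..., e (n - 1)`. -/
noncomputable def code (e : ℕ → X) (K : ℕ → ℕ) (n : ℕ) (y : StrongDual ℝ X) : Fin n → ℤ :=
  fun j => ⌊(K n : ℝ) * y (e j)⌋

/-- The cells of the dual ball at level `n`. -/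
def cell (e : ℕ → X) (K : ℕ → ℕ) (n : ℕ) (g : Fin n → ℤ) : Set (StrongDual ℝ X) :=
  {y | ‖y‖ ≤ 1 ∧ code e K n y = g}

/-- The finite set of possible codes. -/
noncomputable def codes (K : ℕ → ℕ) (n : ℕ) : Finset (Fin n → ℤ) :=
  Fintype.piFinset fun _ => Finset.Icc (-(K n : ℤ)) (K n)

theorem code_mem {e : ℕ → X} (he : ∀ k, ‖e k‖ ≤ 1) (K : ℕ → ℕ) (n : ℕ) {y : StrongDual ℝ X}
    (hy : ‖y‖ ≤ 1) : code e K n y ∈ codes K n := by
  rw [codes, Fintype.mem_piFinset]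
  intro j
  have h1 : |y (e j)| ≤ 1 := by
    calc |y (e j)| ≤ ‖y‖ * ‖e j‖ := y.le_opNorm _
      _ ≤ 1 * 1 := by
        gcongr
        exact he _
      _ = 1 := one_mul _
  rw [abs_le] at h1
  have hK : (0 : ℝ) ≤ K n := Nat.cast_nonneg _
  rw [Finset.mem_Icc, code]
  constructor
  · rw [Int.le_floor]
    push_cast
    nlinarith
  · have : ((⌊(K n : ℝ) * y (e j)⌋ : ℤ) : ℝ) ≤ K n := (Int.floor_le _).trans (by nlinarith)
    exact_mod_cast this

theorem cell_close {e : ℕ → X} {K : ℕ → ℕ} {n : ℕ} {y y' : StrongDual ℝ X}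
    (h : code e K n y = code e K n y') (hK : 0 < K n) {j : ℕ} (hj : j < n) :
    |y (e j) - y' (e j)| ≤ 1 / K n := by
  have h1 := congrFun h ⟨j, hj⟩
  simp only [code] at h1
  have h2 := Int.abs_sub_lt_one_of_floor_eq_floor h1
  have hK' : (0 : ℝ) < K n := by exact_mod_cast hK
  rw [← mul_sub, abs_mul, abs_of_pos hK'] at h2
  rw [le_div_iff₀ hK']
  linarith

/-- For vectors supported in `[0, n)`, functionals in the same cell almost agree. -/
theorem cell_close_comb {e : ℕ → X} {K : ℕ → ℕ} {n : ℕ} {y y' : StrongDual ℝ X}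
    (h : code e K n y = code e K n y') (hK : 0 < K n) {a : ℕ →₀ ℝ} (ha : ∀ j, n ≤ j → a j = 0) :
    |y (comb e a) - y' (comb e a)| ≤ 1 / K n * N a := by
  rw [comb, Finsupp.linearCombination_apply, Finsupp.sum, map_sum, map_sum,
    ← Finset.sum_sub_distrib, N, Finsupp.sum, Finset.mul_sum]
  refine (Finset.abs_sum_le_sum_abs _ _).trans (Finset.sum_le_sum fun k hk => ?_)
  have hk' : k < n := by
    by_contra hcon
    exact (Finsupp.mem_support_iff.mp hk) (ha k (not_lt.mp hcon))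
  rw [map_smul, map_smul, smul_eq_mul, smul_eq_mul, ← mul_sub, abs_mul, mul_comm]
  exact mul_le_mul_of_nonneg_right (cell_close h hK hk') (abs_nonneg _)

/-- The sequence of subspaces on which all width functions of cells are stabilised. -/
theorem exists_V {e : ℕ → X} (he : ∀ k, ‖e k‖ ≤ 1) (K : ℕ → ℕ) {δ : ℕ → ℝ} (hδ : ∀ n, 0 < δ n) :
    ∃ V : ℕ → Submodule ℝ (ℕ →₀ ℝ), Antitone V ∧ (∀ n, Far (V n)) ∧
      ∀ n, ∀ g ∈ codes K n, ∃ w : ℝ, ∀ a ∈ V n, |wid e (cell e K n g) a - w * N a| ≤ δ n * N a := by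
  have step : ∀ n, ∀ V : {V : Submodule ℝ (ℕ →₀ ℝ) // Far V},
      ∃ V' : {V : Submodule ℝ (ℕ →₀ ℝ) // Far V}, V'.1 ≤ V.1 ∧
        ∀ g ∈ codes K n, ∃ w : ℝ, ∀ a ∈ V'.1, |wid e (cell e K n g) a - w * N a| ≤ δ n * N a := by
    intro n V
    obtain ⟨V', h1, h2, h3⟩ := james_finite (codes K n) V.2
      (ω := fun g => wid e (cell e K n g)) (fun g => wid_wid he fun y hy => hy.1) (hδ n)
    exact ⟨⟨V', h2⟩, h1, h3⟩
  choose next hnext1 hnext2 using step
  let W : ℕ → {V : Submodule ℝ (ℕ →₀ ℝ) // Far V} :=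
    fun n => Nat.rec (next 0 ⟨⊤, far_top⟩) (fun n V => next (n + 1) V) n
  refine ⟨fun n => (W n).1, antitone_nat_of_succ_le fun n => hnext1 (n + 1) (W n),
    fun n => (W n).2, fun n => ?_⟩
  cases n with
  | zero => exact hnext2 0 _
  | succ n => exact hnext2 (n + 1) (W n)

end Pool.Agent.MP6b3dca
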