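import Mathlib

/-!
Rosenthal's combinatorial lemma: from a hereditarily oscillating sequence of pairs of sets one can
extract a Boolean independent subsequence.
-/

namespace Pool.Agent.MP6b3dca

/-- `Osc A B M C`: on every infinite subset of `M` some point of `C` lies in infinitely many `A n`
and in infinitely many `B n`. -/
def Osc {S : Type*} (A B : ℕ → Set S) (M : Set ℕ) (C : Set S) : Prop :=
  ∀ M' : Set ℕ, M' ⊆ M → M'.Infinite →
    ∃ s ∈ C, {n ∈ M' | s ∈ A n}.Infinite ∧ {n ∈ M' | s ∈ B n}.Infinite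

theorem Osc.mono {S : Type*} {A B : ℕ → Set S} {M M' : Set ℕ} {C : Set S}
    (h : Osc A B M C) (hM : M' ⊆ M) : Osc A B M' C :=
  fun N hN hinf => h N (hN.trans hM) hinf

theorem osc_step {S : Type*} (A B : ℕ → Set S) {M : Set ℕ} (hM : M.Infinite)
    {F : Set (Set S)} (hF : F.Finite) (hosc : ∀ C ∈ F, Osc A B M C) (k : ℕ) :
    ∃ j : ℕ, k < j ∧ ∃ M' : Set ℕ, M' ⊆ M ∧ M'.Infinite ∧
      ∀ C ∈ F, Osc A B M' (C ∩ A j) ∧ Osc A B M' (C ∩ B j) := by
  classical
  by_contra hcon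
  push Not at hcon
  have : Finite F := hF
  -- one step of the construction
  have hstep : ∀ x : {N : Set ℕ // N ⊆ M ∧ N.Infinite} × ℕ,
      ∃ y : {N : Set ℕ // N ⊆ M ∧ N.Infinite} × ℕ, ∃ t : F × Bool,
        x.2 < y.2 ∧ y.2 ∈ x.1.1 ∧ y.1.1 ⊆ x.1.1 ∧
        ∀ s ∈ t.1.1, s ∈ (if t.2 then A y.2 else B y.2) →
          ¬ ({n ∈ y.1.1 | s ∈ A n}.Infinite ∧ {n ∈ y.1.1 | s ∈ B n}.Infinite) := by
    rintro ⟨⟨N, hNM, hNinf⟩, i⟩
    obtain ⟨j, hjN, hj⟩ := hNinf.exists_gt (max k i)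
    have hkj : k < j := lt_of_le_of_lt (le_max_left _ _) hj
    have hij : i < j := lt_of_le_of_lt (le_max_right _ _) hj
    obtain ⟨C, hCF, hC⟩ := hcon j hkj N hNM hNinf
    by_cases h1 : Osc A B N (C ∩ A j)
    · have h2 := hC h1
      simp only [Osc] at h2
      push Not at h2
      obtain ⟨N', hN'N, hN'inf, hN'⟩ := h2
      refine ⟨(⟨N', hN'N.trans hNM, hN'inf⟩, j), (⟨C, hCF⟩, false), hij, hjN, hN'N, ?_⟩
      intro s hs hsB hboth
      exact absurd hboth.2 (by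
        have := hN' s ⟨hs, by simpa using hsB⟩ hboth.1
        simpa using this)
    · simp only [Osc] at h1
      push Not at h1
      obtain ⟨N', hN'N, hN'inf, hN'⟩ := h1
      refine ⟨(⟨N', hN'N.trans hNM, hN'inf⟩, j), (⟨C, hCF⟩, true), hij, hjN, hN'N, ?_⟩
      intro s hs hsA hboth
      exact absurd hboth.2 (by
        have := hN' s ⟨hs, by simpa using hsA⟩ hboth.1
        simpa using this)
  choose nxt typ hlt hmem hsub hbad using hstep
  let x0 : {N : Set ℕ // N ⊆ M ∧ N.Infinite} × ℕ := (⟨M, subset_rfl, hM⟩, 0)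
  let sq : ℕ → {N : Set ℕ // N ⊆ M ∧ N.Infinite} × ℕ := fun l => Nat.rec x0 (fun _ x => nxt x) l
  have sq_succ : ∀ l, sq (l + 1) = nxt (sq l) := fun l => rfl
  let jj : ℕ → ℕ := fun l => (sq (l + 1)).2
  have jj_mono : StrictMono jj := by
    apply strictMono_nat_of_lt_succ
    intro l
    exact hlt (sq (l + 1))
  have anti : ∀ l m, l ≤ m → (sq m).1.1 ⊆ (sq l).1.1 := by
    intro l m hlm
    induction m, hlm using Nat.le_induction with
    | base => exact subset_rfl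
    | succ m hm ih => exact (hsub (sq m)).trans ih
  obtain ⟨t, ht⟩ := Finite.exists_infinite_fiber (fun l => typ (sq l))
  have hT : {l | typ (sq l) = t}.Infinite := by
    have := Set.infinite_coe_iff.mp ht
    exact this
  let Q : Set ℕ := jj '' {l | typ (sq l) = t}
  have hQinf : Q.Infinite := hT.image jj_mono.injective.injOn
  have hjM : ∀ l, jj l ∈ (sq l).1.1 := fun l => hmem (sq l)
  have hQM : Q ⊆ M := by
    rintro _ ⟨l, _, rfl⟩
    exact (sq l).1.2.1 (hjM l)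
  obtain ⟨s, hsC, hsA, hsB⟩ := hosc t.1.1 t.1.2 Q hQM hQinf
  -- a good index
  have hex : ∃ l, typ (sq l) = t ∧ s ∈ (if t.2 then A (jj l) else B (jj l)) := by
    cases htb : t.2 with
    | true =>
      obtain ⟨n, ⟨l, hl, rfl⟩, hn⟩ := hsA.nonempty
      exact ⟨l, hl, by simpa using hn⟩
    | false =>
      obtain ⟨n, ⟨l, hl, rfl⟩, hn⟩ := hsB.nonempty
      exact ⟨l, hl, by simpa using hn⟩
  obtain ⟨l, hl, hsl⟩ := hex
  have hfin : (Q \ (sq (l + 1)).1.1).Finite := by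
    apply (Set.finite_Iic (jj l)).subset
    rintro _ ⟨⟨m, hm, rfl⟩, hnot⟩
    by_contra hgt
    have : l < m := by
      by_contra hle
      exact hgt (jj_mono.monotone (not_lt.mp hle))
    exact hnot (anti (l + 1) m this (hjM m))
  have key : ∀ E : ℕ → Set S, {n ∈ Q | s ∈ E n}.Infinite →
      {n ∈ (sq (l + 1)).1.1 | s ∈ E n}.Infinite := by
    intro E hE
    have h1 : ({n ∈ Q | s ∈ E n} \ (Q \ (sq (l + 1)).1.1)).Infinite := hE.sdiff hfin
    refine h1.mono ?_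
    rintro n ⟨⟨hnQ, hnE⟩, hn⟩
    refine ⟨?_, hnE⟩
    by_contra h
    exact hn ⟨hnQ, h⟩
  refine hbad (sq l) s ?_ ?_ ⟨key A hsA, key B hsB⟩
  · rw [hl]; exact hsC
  · rw [hl]; exact hsl

theorem exists_independent {S : Type*} (A B : ℕ → Set S)
    (h : ∀ M : Set ℕ, M.Infinite →
      ∃ s : S, {n ∈ M | s ∈ A n}.Infinite ∧ {n ∈ M | s ∈ B n}.Infinite) :
    ∃ j : ℕ → ℕ, StrictMono j ∧
      ∀ (k : ℕ) (ε : ℕ → Bool), ∃ s : S, ∀ i < k, s ∈ (if ε i then A (j i) else B (j i)) := by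
  classical
  have hstep : ∀ x : {x : Set (Set S) × Set ℕ × ℕ //
        x.1.Finite ∧ x.2.1.Infinite ∧ ∀ C ∈ x.1, Osc A B x.2.1 C},
      ∃ y : {x : Set (Set S) × Set ℕ × ℕ //
        x.1.Finite ∧ x.2.1.Infinite ∧ ∀ C ∈ x.1, Osc A B x.2.1 C},
        x.1.2.2 < y.1.2.2 ∧
        (∀ C ∈ x.1.1, C ∩ A y.1.2.2 ∈ y.1.1 ∧ C ∩ B y.1.2.2 ∈ y.1.1) := by
    rintro ⟨⟨F, M, i⟩, hF, hM, hosc⟩
    obtain ⟨j, hij, M', hM'M, hM'inf, hM'⟩ := osc_step A B hM hF hosc i
    refine ⟨⟨((fun C => C ∩ A j) '' F ∪ (fun C => C ∩ B j) '' F, M', j), ?_, hM'inf, ?_⟩, hij, ?_⟩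
    · exact (hF.image _).union (hF.image _)
    · rintro C (⟨D, hD, rfl⟩ | ⟨D, hD, rfl⟩)
      · exact (hM' D hD).1
      · exact (hM' D hD).2
    · intro C hC
      exact ⟨Or.inl ⟨C, hC, rfl⟩, Or.inr ⟨C, hC, rfl⟩⟩
  choose nxt hlt hnxt using hstep
  let x0 : {x : Set (Set S) × Set ℕ × ℕ //
        x.1.Finite ∧ x.2.1.Infinite ∧ ∀ C ∈ x.1, Osc A B x.2.1 C} :=
    ⟨({Set.univ}, Set.univ, 0), Set.finite_singleton _, Set.infinite_univ, by
      intro C hC M' _ hM'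
      obtain ⟨s, hs⟩ := h M' hM'
      refine ⟨s, ?_, hs⟩
      rw [Set.mem_singleton_iff.mp hC]
      exact Set.mem_univ _⟩
  let sq : ℕ → {x : Set (Set S) × Set ℕ × ℕ //
        x.1.Finite ∧ x.2.1.Infinite ∧ ∀ C ∈ x.1, Osc A B x.2.1 C} :=
    fun l => Nat.rec x0 (fun _ x => nxt x) l
  refine ⟨fun l => (sq (l + 1)).1.2.2, ?_, ?_⟩
  · apply strictMono_nat_of_lt_succ
    intro l
    exact hlt (sq (l + 1))
  · intro k ε
    have hmem : ∀ k : ℕ, {s : S | ∀ i < k, s ∈ (if ε i then A (sq (i + 1)).1.2.2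
        else B (sq (i + 1)).1.2.2)} ∈ (sq k).1.1 := by
      intro k
      induction k with
      | zero =>
        have : {s : S | ∀ i < 0, s ∈ (if ε i then A (sq (i + 1)).1.2.2
            else B (sq (i + 1)).1.2.2)} = Set.univ := by
          ext s; simp
        rw [this]
        exact Set.mem_singleton _
      | succ k ih =>
        have hsplit : {s : S | ∀ i < k + 1, s ∈ (if ε i then A (sq (i + 1)).1.2.2
            else B (sq (i + 1)).1.2.2)} =
            {s : S | ∀ i < k, s ∈ (if ε i then A (sq (i + 1)).1.2.2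
            else B (sq (i + 1)).1.2.2)} ∩ (if ε k then A (sq (k + 1)).1.2.2
            else B (sq (k + 1)).1.2.2) := by
          ext s
          simp only [Set.mem_ofPred_eq, Set.mem_inter_iff, Nat.forall_lt_succ_right]
        rw [hsplit]
        have h2 := hnxt (sq k) _ ih
        cases hε : ε k with
        | true => simpa using h2.1
        | false => simpa using h2.2
    obtain ⟨s, hs, _⟩ := (sq k).2.2.2 _ (hmem k) (sq k).1.2.1 subset_rfl (sq k).2.2.1
    exact ⟨s, hs⟩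

end Pool.Agent.MP6b3dca
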