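import Pool.Agent.MP6b3dca.L1
import Pool.Agent.MP6b3dca.Cells
import Pool.Agent.MP6b3dca.Rosenthal

/-!
An `ℓ₁` sequence from a hereditarily oscillating bounded sequence (Rosenthal's theorem).
-/

set_option autoImplicit false

namespace Pool.Agent.MP6b3dca

/-- A finite colouring of the infinite subsets by an upward closed property stabilizes. -/
theorem exists_stable {ι : Type*} (P : ι → Set ℕ → Prop)
    (hP : ∀ (m : ι) (M M' : Set ℕ), M ⊆ M' → P m M → P m M') (F : Finset ι) :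
    ∀ M1 : Set ℕ, M1.Infinite → (∀ M : Set ℕ, M.Infinite → M ⊆ M1 → ∃ m ∈ F, P m M) →
      ∃ m : ι, ∃ M0 : Set ℕ, M0.Infinite ∧ ∀ M : Set ℕ, M.Infinite → M ⊆ M0 → P m M := by
  classical
  induction F using Finset.induction_on with
  | empty =>
    intro M1 h1 h2
    obtain ⟨m, hm, -⟩ := h2 M1 h1 subset_rfl
    exact absurd hm (Finset.notMem_empty m)
  | insert m F hm ih =>
    intro M1 h1 h2
    by_cases h : ∀ M : Set ℕ, M.Infinite → M ⊆ M1 → P m M
    · exact ⟨m, M1, h1, h⟩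
    · push Not at h
      obtain ⟨M2, h3, h4, h5⟩ := h
      refine ih M2 h3 fun M hM hM2 => ?_
      obtain ⟨m', hm', hP'⟩ := h2 M hM (hM2.trans h4)
      rcases Finset.mem_insert.mp hm' with rfl | hm''
      · exact absurd (hP m' M M2 hM2 hP') h5
      · exact ⟨m', hm'', hP'⟩

theorem exists_l1 {X : Type*} [NormedAddCommGroup X] [NormedSpace ℝ X] {θ : ℝ} (hθ : 0 < θ)
    {x : ℕ → X} (hx : ∀ n, ‖x n‖ ≤ 2)
    (h : ∀ φ : ℕ → ℕ, StrictMono φ → ∃ b : StrongDual ℝ X, ‖b‖ ≤ 1 ∧ ∃ α : ℝ, |α| ≤ 4 ∧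
      (∃ᶠ n in Filter.atTop, α + θ / 4 ≤ b (x (φ n))) ∧
      (∃ᶠ n in Filter.atTop, b (x (φ n)) ≤ α)) :
    ∃ e : ℕ → X, (∀ k, ‖e k‖ ≤ 1) ∧ ∃ c : ℝ, 0 < c ∧ ∀ a : ℕ →₀ ℝ, c * N a ≤ ‖comb e a‖ := by
  classical
  set P : ℤ → Set ℕ → Prop := fun m M => ∃ b : {b : StrongDual ℝ X // ‖b‖ ≤ 1},
    {n ∈ M | ((m : ℝ) + 1) * (θ / 16) ≤ b.1 (x n)}.Infinite ∧
    {n ∈ M | b.1 (x n) ≤ (m : ℝ) * (θ / 16)}.Infinite with hPdef
  have hPmono : ∀ (m : ℤ) (M M' : Set ℕ), M ⊆ M' → P m M → P m M' := by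
    rintro m M M' hMM ⟨b, h1, h2⟩
    exact ⟨b, h1.mono fun n hn => ⟨hMM hn.1, hn.2⟩, h2.mono fun n hn => ⟨hMM hn.1, hn.2⟩⟩
  set K : ℤ := ⌈64 / θ⌉ + 1 with hK
  have hstep : ∀ M : Set ℕ, M.Infinite → M ⊆ Set.univ → ∃ m ∈ Finset.Icc (-K) K, P m M := by
    intro M hM _
    have hφ : StrictMono (Nat.nth (· ∈ M)) := Nat.nth_strictMono hM
    obtain ⟨b, hb, α, hα, h1, h2⟩ := h _ hφ
    have hmem : ∀ n, Nat.nth (· ∈ M) n ∈ M := fun n => Nat.nth_mem_of_infinite hM n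
    have hceil1 := Int.le_ceil (16 * α / θ)
    have hceil2 := (Int.ceil_lt_add_one (16 * α / θ)).le
    have hα1 : α ≤ (⌈16 * α / θ⌉ : ℝ) * (θ / 16) := by
      calc α = 16 * α / θ * (θ / 16) := by field_simp
        _ ≤ _ := by gcongr
    have hα2 : ((⌈16 * α / θ⌉ : ℝ) + 1) * (θ / 16) ≤ α + θ / 4 := by
      calc ((⌈16 * α / θ⌉ : ℝ) + 1) * (θ / 16) ≤ ((16 * α / θ + 1) + 1) * (θ / 16) := by gcongr
        _ = α + θ / 8 := by field_simp; ring
        _ ≤ _ := by linarith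
    rw [abs_le] at hα
    have h64 := Int.le_ceil (64 / θ)
    refine ⟨⌈16 * α / θ⌉, ?_, ⟨b, hb⟩, ?_, ?_⟩
    · rw [Finset.mem_Icc]
      constructor
      · have : (-(K : ℝ)) ≤ (⌈16 * α / θ⌉ : ℝ) := by
          have h3 : -(64 / θ) ≤ 16 * α / θ := by
            rw [← neg_div]
            gcongr
            linarith
          rw [hK]
          push_cast
          linarith
        exact_mod_cast this
      · have : (⌈16 * α / θ⌉ : ℝ) ≤ (K : ℝ) := by
          have h3 : 16 * α / θ ≤ 64 / θ := by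
            gcongr
            linarith
          rw [hK]
          push_cast
          linarith
        exact_mod_cast this
    · have h3 := Nat.frequently_atTop_iff_infinite.mp h1
      refine (h3.image (hφ.injective.injOn)).mono ?_
      rintro _ ⟨n, hn, rfl⟩
      exact ⟨hmem n, hα2.trans hn⟩
    · have h3 := Nat.frequently_atTop_iff_infinite.mp h2
      refine (h3.image (hφ.injective.injOn)).mono ?_
      rintro _ ⟨n, hn, rfl⟩
      exact ⟨hmem n, le_trans hn hα1⟩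
  obtain ⟨m, M0, hM0, hm⟩ := exists_stable P hPmono _ Set.univ Set.infinite_univ hstep
  set φ : ℕ → ℕ := Nat.nth (· ∈ M0) with hφdef
  have hφ : StrictMono φ := Nat.nth_strictMono hM0
  have hmem : ∀ n, φ n ∈ M0 := fun n => Nat.nth_mem_of_infinite hM0 n
  obtain ⟨j, hj, hind⟩ := exists_independent
    (fun n => {b : {b : StrongDual ℝ X // ‖b‖ ≤ 1} | ((m : ℝ) + 1) * (θ / 16) ≤ b.1 (x (φ n))})
    (fun n => {b : {b : StrongDual ℝ X // ‖b‖ ≤ 1} | b.1 (x (φ n)) ≤ (m : ℝ) * (θ / 16)}) (by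
      intro M hM
      obtain ⟨b, h1, h2⟩ := hm (φ '' M) (hM.image hφ.injective.injOn) (by
        rintro _ ⟨n, -, rfl⟩
        exact hmem n)
      refine ⟨b, ?_, ?_⟩
      · refine Set.Infinite.of_image φ (h1.mono ?_)
        rintro _ ⟨⟨n, hn, rfl⟩, hn2⟩
        exact ⟨n, ⟨hn, hn2⟩, rfl⟩
      · refine Set.Infinite.of_image φ (h2.mono ?_)
        rintro _ ⟨⟨n, hn, rfl⟩, hn2⟩
        exact ⟨n, ⟨hn, hn2⟩, rfl⟩)
  refine ⟨fun k => (1 / 2 : ℝ) • x (φ (j k)), fun k => ?_, θ / 64, by positivity, fun a => ?_⟩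
  · rw [norm_smul]
    have := hx (φ (j k))
    norm_num
    linarith
  · obtain ⟨k, hk⟩ : ∃ k, ∀ i ∈ a.support, i < k :=
      ⟨a.support.sup id + 1, fun i hi => Nat.lt_succ_of_le (Finset.le_sup (f := id) hi)⟩
    obtain ⟨b, hb⟩ := hind k fun i => decide (0 ≤ a i)
    obtain ⟨b', hb'⟩ := hind k fun i => !decide (0 ≤ a i)
    have hcomb : ∀ f : StrongDual ℝ X, f (comb (fun k => (1 / 2 : ℝ) • x (φ (j k))) a) =
        ∑ i ∈ a.support, a i * ((1 / 2) * f (x (φ (j i)))) := by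
      intro f
      rw [comb, Finsupp.linearCombination_apply, Finsupp.sum, map_sum]
      refine Finset.sum_congr rfl fun i _ => ?_
      simp
    have hterm : ∀ i ∈ a.support, θ / 32 * |a i| ≤
        a i * ((1 / 2) * b.1 (x (φ (j i)))) - a i * ((1 / 2) * b'.1 (x (φ (j i)))) := by
      intro i hi
      have h1 := hb i (hk i hi)
      have h2 := hb' i (hk i hi)
      by_cases h3 : 0 ≤ a i
      · simp only [h3, decide_true, if_true, Set.mem_ofPred_eq, Bool.not_true, if_false,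
          Bool.false_eq_true] at h1 h2
        rw [abs_of_nonneg h3]
        nlinarith
      · simp only [h3, decide_false, if_true, Set.mem_ofPred_eq, Bool.not_false, if_false,
          Bool.false_eq_true] at h1 h2
        push Not at h3
        rw [abs_of_neg h3]
        nlinarith
    have hsum := Finset.sum_le_sum hterm
    rw [Finset.sum_sub_distrib, ← hcomb, ← hcomb, ← Finset.mul_sum] at hsum
    have h1 := (le_abs_self _).trans (b.1.le_of_opNorm_le b.2
      (comb (fun k => (1 / 2 : ℝ) • x (φ (j k))) a))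
    have h2 := (neg_abs_le _).trans' (neg_le_neg (b'.1.le_of_opNorm_le b'.2
      (comb (fun k => (1 / 2 : ℝ) • x (φ (j k))) a)))
    have hN : N a = ∑ i ∈ a.support, |a i| := rfl
    rw [hN]
    linarith

end Pool.Agent.MP6b3dca
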