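import Mathlib

/-!
# James sequences in a nonreflexive Banach space
-/

open Set Metric Filter Topology

namespace Pool.Agent.MP6b3dca

/-- Bounding a functional by homogeneity. -/
theorem norm_le_of_bound {X : Type*} [NormedAddCommGroup X] [NormedSpace ℝ X]
    (g : X →L[ℝ] ℝ) {u : ℝ} (hu : 0 ≤ u) (h : ∀ x, ‖x‖ ≤ 2 → g x ≤ u) : 2 * ‖g‖ ≤ u := by
  have h1 : ‖g‖ ≤ u / 2 := by
    refine ContinuousLinearMap.opNorm_le_bound _ (by positivity) fun x => ?_
    rcases eq_or_ne x 0 with rfl | hx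
    · simp
    have hx' : 0 < ‖x‖ := norm_pos_iff.mpr hx
    have h2 : ‖(2 / ‖x‖) • x‖ ≤ 2 := by
      rw [norm_smul, Real.norm_of_nonneg (by positivity)]
      rw [div_mul_cancel₀ _ hx'.ne']
    have h3 := h _ h2
    have h4 := h (-((2 / ‖x‖) • x)) (by rw [norm_neg]; exact h2)
    rw [map_neg, map_smul, smul_eq_mul] at h4
    rw [map_smul, smul_eq_mul] at h3
    have h5 : |2 / ‖x‖ * g x| ≤ u := abs_le.mpr ⟨by linarith, h3⟩
    rw [abs_mul, abs_of_pos (by positivity : (0 : ℝ) < 2 / ‖x‖)] at h5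
    rw [Real.norm_eq_abs]
    rw [div_mul_eq_mul_div, div_le_iff₀ hx'] at h5
    linarith
  linarith

/-- Approximate version of Helly's theorem. -/
theorem helly {X : Type*} [NormedAddCommGroup X] [NormedSpace ℝ X]
    (w : StrongDual ℝ (StrongDual ℝ X)) (hw : ‖w‖ ≤ 1) {θ : ℝ} (hθ : 0 < θ)
    (t : Finset (StrongDual ℝ X)) :
    ∃ x : X, ‖x‖ ≤ 2 ∧ ∀ f ∈ t, |f x - w f| ≤ θ := by
  classical
  let T : X →ₗ[ℝ] (t → ℝ) := LinearMap.pi fun f => (f.1 : X →ₗ[ℝ] ℝ)
  let p : t → ℝ := fun f => w f.1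
  let C : Set (t → ℝ) := T '' closedBall 0 2
  have hC : Convex ℝ C := (convex_closedBall 0 2).is_linear_image T.isLinear
  have hp : p ∈ closure C := by
    by_contra hp
    obtain ⟨L, u, h1, h2⟩ := geometric_hahn_banach_closed_point hC.closure isClosed_closure hp
    let a : t → ℝ := fun f => L (Pi.single f 1)
    have hL : ∀ y : t → ℝ, L y = ∑ f, y f * a f := by
      intro y
      conv_lhs => rw [← Finset.univ_sum_single y]
      rw [map_sum]
      refine Finset.sum_congr rfl fun f _ => ?_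
      have : (Pi.single f (y f) : t → ℝ) = y f • Pi.single f (1 : ℝ) := by
        rw [← Pi.single_smul, smul_eq_mul, mul_one]
      rw [this, map_smul, smul_eq_mul]
    let g : StrongDual ℝ X := ∑ f : t, a f • f.1
    have hg : ∀ x : X, g x = L (T x) := by
      intro x
      rw [hL]
      simp only [g, _root_.sum_apply, _root_.smul_apply, smul_eq_mul]
      refine Finset.sum_congr rfl fun f _ => ?_
      rw [mul_comm]
      rfl
    have hwg : w g = L p := by
      rw [hL]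
      simp only [g, map_sum, map_smul, smul_eq_mul]
      refine Finset.sum_congr rfl fun f _ => ?_
      rw [mul_comm]
    have h0 : 0 < u := by
      have := h1 0 (subset_closure ⟨0, by simp, by simp⟩)
      simpa using this
    have h3 : 2 * ‖g‖ ≤ u := by
      refine norm_le_of_bound g h0.le fun x hx => ?_
      rw [hg]
      exact (h1 _ (subset_closure ⟨x, by simpa using hx, rfl⟩)).le
    have h4 : w g ≤ ‖g‖ := by
      calc w g ≤ ‖w g‖ := Real.le_norm_self _
        _ ≤ ‖w‖ * ‖g‖ := w.le_opNorm g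
        _ ≤ 1 * ‖g‖ := by gcongr
        _ = ‖g‖ := one_mul _
    have h5 : 0 ≤ ‖g‖ := norm_nonneg g
    linarith
  rw [Metric.mem_closure_iff] at hp
  obtain ⟨_, ⟨x, hx, rfl⟩, hd⟩ := hp θ hθ
  refine ⟨x, by simpa using hx, fun f hf => ?_⟩
  have h6 := dist_le_pi_dist p (T x) ⟨f, hf⟩
  rw [Real.dist_eq, abs_sub_comm] at h6
  exact le_trans h6 hd.le

/-- Functionals vanishing at finitely many points where a given bidual element is large. -/
theorem exists_annihilating {X : Type*} [NormedAddCommGroup X] [NormedSpace ℝ X]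
    (w : StrongDual ℝ (StrongDual ℝ X)) {θ : ℝ} (hθ : 0 < θ)
    (hd : ∀ x : X, 2 * θ < ‖w - NormedSpace.inclusionInDoubleDual ℝ X x‖) (t : Finset X) :
    ∃ f : StrongDual ℝ X, ‖f‖ ≤ 1 ∧ (∀ x ∈ t, f x = 0) ∧ 2 * θ ≤ w f := by
  classical
  by_contra hcon
  push Not at hcon
  let G : Subspace ℝ (StrongDual ℝ X) :=
    ⨅ x : t, LinearMap.ker (NormedSpace.inclusionInDoubleDual ℝ X x.1 : StrongDual ℝ X →ₗ[ℝ] ℝ)
  have hG : ∀ f, f ∈ G ↔ ∀ x ∈ t, f x = 0 := by
    intro f
    simp only [G, Submodule.mem_iInf, LinearMap.mem_ker]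
    constructor
    · intro h x hx
      exact h ⟨x, hx⟩
    · intro h x
      exact h x.1 x.2
  have hb : ∀ f ∈ G, ‖w f‖ ≤ 2 * θ * ‖f‖ := by
    intro f hf
    rcases eq_or_ne f 0 with rfl | hf0
    · simp
    have hf1 : 0 < ‖f‖ := norm_pos_iff.mpr hf0
    have key : ∀ c : ℝ, |c| = ‖f‖⁻¹ → c * w f ≤ 2 * θ := by
      intro c hc
      have h1 := hcon (c • f) (by
        rw [norm_smul, Real.norm_eq_abs, hc, inv_mul_cancel₀ hf1.ne']) (by
        intro x hx
        rw [_root_.smul_apply, (hG f).mp hf x hx, smul_zero])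
      rw [map_smul, smul_eq_mul] at h1
      exact h1.le
    have h2 := key ‖f‖⁻¹ (abs_of_pos (by positivity))
    have h3 := key (-‖f‖⁻¹) (by rw [abs_neg]; exact abs_of_pos (by positivity))
    have h4 : |‖f‖⁻¹ * w f| ≤ 2 * θ := abs_le.mpr ⟨by linarith, h2⟩
    rw [abs_mul, abs_of_pos (by positivity : (0 : ℝ) < ‖f‖⁻¹), inv_mul_le_iff₀ hf1] at h4
    rw [Real.norm_eq_abs]
    linarith
  obtain ⟨w1, hw1, hw1n⟩ := exists_extension_norm_eq G (w.comp G.subtypeL)
  have hn : ‖w1‖ ≤ 2 * θ := by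
    rw [hw1n]
    refine ContinuousLinearMap.opNorm_le_bound _ (by positivity) fun f => ?_
    exact hb f.1 f.2
  have hker : (w - w1 : StrongDual ℝ (StrongDual ℝ X)).toLinearMap ∈ Submodule.span ℝ
      (range fun x : t =>
        (NormedSpace.inclusionInDoubleDual ℝ X x.1 : StrongDual ℝ X →ₗ[ℝ] ℝ)) := by
    refine mem_span_of_iInf_ker_le_ker fun f hf => ?_
    rw [LinearMap.mem_ker]
    have := hw1 ⟨f, hf⟩
    show w f - w1 f = 0
    rw [this]
    simp
  have hspan : ∀ φ ∈ Submodule.span ℝ (range fun x : t =>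
      (NormedSpace.inclusionInDoubleDual ℝ X x.1 : StrongDual ℝ X →ₗ[ℝ] ℝ)),
      ∃ x : X, φ = (NormedSpace.inclusionInDoubleDual ℝ X x : StrongDual ℝ X →ₗ[ℝ] ℝ) := by
    intro φ hφ
    induction hφ using Submodule.span_induction with
    | mem φ h => obtain ⟨x, rfl⟩ := h; exact ⟨x.1, rfl⟩
    | zero => exact ⟨0, by ext f; simp⟩
    | add φ ψ _ _ h1 h2 =>
      obtain ⟨x, rfl⟩ := h1
      obtain ⟨y, rfl⟩ := h2
      exact ⟨x + y, by ext f; simp⟩
    | smul c φ _ h1 =>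
      obtain ⟨x, rfl⟩ := h1
      exact ⟨c • x, by ext f; simp⟩
  obtain ⟨x, hx⟩ := hspan _ hker
  have h5 : w - NormedSpace.inclusionInDoubleDual ℝ X x = w1 := by
    ext f
    have := LinearMap.congr_fun hx f
    have h6 : w f - w1 f = NormedSpace.inclusionInDoubleDual ℝ X x f := this
    rw [_root_.sub_apply, ← h6]
    ring
  have h7 := hd x
  rw [h5] at h7
  linarith

/-- James sequences in a nonreflexive Banach space. -/
theorem exists_james {X : Type*} [NormedAddCommGroup X] [NormedSpace ℝ X] [CompleteSpace X]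
    (h : ¬ Function.Surjective (NormedSpace.inclusionInDoubleDual ℝ X)) :
    ∃ θ : ℝ, 0 < θ ∧ ∃ (x : ℕ → X) (f : ℕ → StrongDual ℝ X), (∀ n, ‖x n‖ ≤ 2) ∧
      (∀ n, ‖f n‖ ≤ 1) ∧ (∀ m n, m ≤ n → θ ≤ f m (x n)) ∧ (∀ m n, n < m → f m (x n) = 0) := by
  classical
  have hclosed : IsClosed (range (NormedSpace.inclusionInDoubleDual ℝ X)) := by
    have h1 := (NormedSpace.inclusionInDoubleDualLi ℝ (E := X)).isometry.isUniformInducing
    exact h1.isComplete_range.isClosed
  obtain ⟨w0, hw0⟩ : ∃ w0, w0 ∉ range (NormedSpace.inclusionInDoubleDual ℝ X) := by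
    by_contra hcon
    push Not at hcon
    exact h hcon
  have hw0' : w0 ≠ 0 := by
    rintro rfl
    exact hw0 ⟨0, by simp⟩
  have hw0n : 0 < ‖w0‖ := (norm_pos_iff (a := w0)).mpr hw0'
  set w : StrongDual ℝ (StrongDual ℝ X) := ‖w0‖⁻¹ • w0 with hwdef
  have hwn : ‖w‖ ≤ 1 := by
    refine ContinuousLinearMap.opNorm_le_bound _ zero_le_one fun f => ?_
    have h1 : w f = ‖w0‖⁻¹ * w0 f := rfl
    rw [h1, norm_mul, norm_inv, Real.norm_of_nonneg hw0n.le, one_mul, inv_mul_le_iff₀ hw0n]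
    exact w0.le_opNorm f
  have hwr : w ∉ range (NormedSpace.inclusionInDoubleDual ℝ X) := by
    rintro ⟨x, hx⟩
    apply hw0
    refine ⟨‖w0‖ • x, ?_⟩
    rw [map_smul, hx, hwdef, smul_smul, mul_inv_cancel₀ hw0n.ne', one_smul]
  have hpos : 0 < infDist w (range (NormedSpace.inclusionInDoubleDual ℝ X)) :=
    (hclosed.notMem_iff_infDist_pos ⟨_, mem_range_self 0⟩).mp hwr
  set d := infDist w (range (NormedSpace.inclusionInDoubleDual ℝ X)) with hddef
  set θ := d / 3 with hθdef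
  have hθ : 0 < θ := by positivity
  have hd : ∀ x : X, 2 * θ < ‖w - NormedSpace.inclusionInDoubleDual ℝ X x‖ := by
    intro x
    have h1 : d ≤ ‖w - NormedSpace.inclusionInDoubleDual ℝ X x‖ :=
      le_trans (infDist_le_dist_of_mem (mem_range_self x)) (le_of_eq (dist_eq_norm (E := StrongDual ℝ (StrongDual ℝ X)) w _))
    have h2 : 2 * θ < d := by rw [hθdef]; linarith
    linarith
  obtain ⟨F, hF1, hF2⟩ := exists_seq_of_forall_finset_exists
    (P := fun p : X × StrongDual ℝ X => ‖p.1‖ ≤ 2 ∧ ‖p.2‖ ≤ 1 ∧ 2 * θ ≤ w p.2 ∧ θ ≤ p.2 p.1)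
    (r := fun p q => q.2 p.1 = 0 ∧ θ ≤ p.2 q.1) (by
      intro s hs
      obtain ⟨f, hf1, hf2, hf3⟩ := exists_annihilating w hθ hd (s.image Prod.fst)
      obtain ⟨x, hx1, hx2⟩ := helly w hwn hθ (insert f (s.image Prod.snd))
      refine ⟨(x, f), ⟨hx1, hf1, hf3, ?_⟩, ?_⟩
      · have := (abs_le.mp (hx2 f (Finset.mem_insert_self _ _))).1
        simp only
        linarith
      · intro p hp
        refine ⟨hf2 p.1 (Finset.mem_image_of_mem _ hp), ?_⟩
        have h1 := (abs_le.mp (hx2 p.2 (Finset.mem_insert_of_mem (Finset.mem_image_of_mem _ hp)))).1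
        have h2 := (hs p hp).2.2.1
        simp only
        linarith)
  refine ⟨θ, hθ, fun n => (F n).1, fun n => (F n).2, fun n => (hF1 n).1, fun n => (hF1 n).2.1,
    ?_, ?_⟩
  · intro m n hmn
    rcases hmn.eq_or_lt with rfl | hlt
    · exact (hF1 m).2.2.2
    · exact (hF2 m n hlt).2
  · intro m n hnm
    exact (hF2 n m hnm).1

end Pool.Agent.MP6b3dca
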