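import Mathlib
import Pool.Agent.MP6b3dca.BishopPhelps

open Set Metric Filter Topology

namespace Pool.Agent.MP6b3dca

/-- A weak-* cluster point of a bounded sequence, along the hyperfilter. -/
theorem simons_cluster {X : Type*} [NormedAddCommGroup X] [NormedSpace ℝ X] (x : ℕ → X)
    {R : ℝ} (hx : ∀ n, ‖x n‖ ≤ R) :
    ∃ w : StrongDual ℝ (StrongDual ℝ X), ‖w‖ ≤ R ∧
      ∀ g : StrongDual ℝ X, Tendsto (fun n => g (x n)) (hyperfilter ℕ : Filter ℕ) (𝓝 (w g)) := by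
  set q : Ultrafilter ℕ := hyperfilter ℕ with hq
  have hb : ∀ g : StrongDual ℝ X, ∀ n, |g (x n)| ≤ R * ‖g‖ := by
    intro g n
    calc |g (x n)| ≤ ‖g‖ * ‖x n‖ := g.le_opNorm _
      _ ≤ ‖g‖ * R := mul_le_mul_of_nonneg_left (hx n) (norm_nonneg _)
      _ = R * ‖g‖ := mul_comm _ _
  have hlim : ∀ g : StrongDual ℝ X, ∃ l : ℝ, |l| ≤ R * ‖g‖ ∧
      Tendsto (fun n => g (x n)) (q : Filter ℕ) (𝓝 l) := by
    intro g
    have hc : IsCompact (Icc (-(R * ‖g‖)) (R * ‖g‖)) := isCompact_Icc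
    obtain ⟨l, hl, hlt⟩ := hc.ultrafilter_le_nhds (q.map fun n => g (x n)) (by
      rw [le_principal_iff]
      have : ∀ᶠ n in (q : Filter ℕ), g (x n) ∈ Icc (-(R * ‖g‖)) (R * ‖g‖) :=
        Eventually.of_forall fun n => abs_le.1 (hb g n)
      exact this)
    exact ⟨l, abs_le.2 hl, hlt⟩
  choose W hW1 hW2 using hlim
  let L : StrongDual ℝ X →ₗ[ℝ] ℝ :=
    { toFun := W
      map_add' := fun g h => tendsto_nhds_unique (hW2 (g + h)) ((hW2 g).add (hW2 h))
      map_smul' := fun c g => tendsto_nhds_unique (hW2 (c • g)) ((hW2 g).const_mul c) }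
  have hR : 0 ≤ R := (norm_nonneg _).trans (hx 0)
  refine ⟨L.mkContinuous R fun g => hW1 g, L.mkContinuous_norm_le hR _, fun g => hW2 g⟩

theorem simons_geom (n : ℕ) : ∑ j ∈ Finset.range n, (2 : ℝ) ^ j * (1 / 4) ^ (j + 1) ≤ 1 / 2 := by
  have h : ∀ n : ℕ, ∑ j ∈ Finset.range n, (2 : ℝ) ^ j * (1 / 4) ^ (j + 1) =
      1 / 2 - 1 / 2 * (1 / 2) ^ n := by
    intro n
    induction n with
    | zero => simp
    | succ n ih =>
      rw [Finset.sum_range_succ, ih]
      have e : (2 : ℝ) ^ n * (1 / 4) ^ (n + 1) = 1 / 4 * (1 / 2) ^ n := by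
        rw [pow_succ, ← mul_assoc, ← mul_pow, mul_comm]
        norm_num
      rw [e, pow_succ]
      ring
  rw [h]
  have : (0 : ℝ) < (1 / 2) ^ n := by positivity
  linarith

/-- The core of Simons' argument, in an abstract normed space `E ⊇ X`. -/
theorem simons_core {X E : Type*} [NormedAddCommGroup X] [NormedSpace ℝ X] [CompleteSpace X]
    [NormedAddCommGroup E] [NormedSpace ℝ E] (J : X →ₗᵢ[ℝ] E) (w : E) (C : ℕ → Set X)
    (hCmono : ∀ m n, m ≤ n → C n ⊆ C m) (hCconv : ∀ n, Convex ℝ (C n))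
    (hCne : ∀ n, (C n).Nonempty) (hCnorm : ∀ n, ∀ y ∈ C n, ‖y‖ ≤ 2) {δ : ℝ} (hδ0 : 0 < δ) :
    ∃ z ∈ closure (C 0), ∀ b : StrongDual ℝ E, ‖b‖ ≤ 1 → b (J z - w) = ‖J z - w‖ →
      ∀ (n : ℕ) (c : ℝ), (∀ r ∈ C n, b (J r) ≤ c) → ‖J z - w‖ ≤ c - b w + δ := by
  -- the recursive choice
  have hchoice : ∀ (n : ℕ) (u : E), ∃ y ∈ C n, ∀ r ∈ C n,
      ‖u + (1 / 2 : ℝ) ^ n • (J y - w)‖ ≤ ‖u + (1 / 2 : ℝ) ^ n • (J r - w)‖ +
        δ * (1 / 4) ^ (n + 1) := by
    intro n u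
    have hne : ((fun r => ‖u + (1 / 2 : ℝ) ^ n • (J r - w)‖) '' C n).Nonempty :=
      (hCne n).image _
    have hbd : BddBelow ((fun r => ‖u + (1 / 2 : ℝ) ^ n • (J r - w)‖) '' C n) :=
      ⟨0, by rintro _ ⟨r, -, rfl⟩; exact norm_nonneg (u + (1 / 2 : ℝ) ^ n • (J r - w))⟩
    obtain ⟨_, ⟨y, hy, rfl⟩, hlt⟩ := exists_lt_of_csInf_lt hne
      (show sInf ((fun r => ‖u + (1 / 2 : ℝ) ^ n • (J r - w)‖) '' C n) <
        sInf ((fun r => ‖u + (1 / 2 : ℝ) ^ n • (J r - w)‖) '' C n) + δ * (1 / 4) ^ (n + 1) by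
        have : 0 < δ * (1 / 4) ^ (n + 1) := by positivity
        linarith)
    refine ⟨y, hy, fun r hr => ?_⟩
    have := csInf_le hbd (mem_image_of_mem _ hr)
    simp only at hlt this
    linarith
  choose ch hch1 hch2 using hchoice
  let v : ℕ → E := fun n =>
    Nat.rec 0 (fun n u => u + (1 / 2 : ℝ) ^ (n + 1) • (J (ch n u) - w)) n
  set Y : ℕ → X := fun n => ch n (v n) with hY
  have hv0 : v 0 = 0 := rfl
  have hvs : ∀ n, v (n + 1) = v n + (1 / 2 : ℝ) ^ (n + 1) • (J (Y n) - w) := fun n => rfl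
  have hYC : ∀ n, Y n ∈ C n := fun n => hch1 n (v n)
  have hYmin : ∀ n, ∀ r ∈ C n, ‖v n + (1 / 2 : ℝ) ^ n • (J (Y n) - w)‖ ≤
      ‖v n + (1 / 2 : ℝ) ^ n • (J r - w)‖ + δ * (1 / 4) ^ (n + 1) := fun n => hch2 n (v n)
  -- averaging
  have havg : ∀ d n : ℕ, ∃ r ∈ C n, v (n + d) + (1 / 2 : ℝ) ^ (n + d) • (J (Y (n + d)) - w) =
      v n + (1 / 2 : ℝ) ^ n • (J r - w) := by
    intro d
    induction d with
    | zero => exact fun n => ⟨Y n, hYC n, rfl⟩
    | succ d ih =>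
      intro n
      obtain ⟨r, hr, hre⟩ := ih (n + 1)
      refine ⟨(1 / 2 : ℝ) • Y n + (1 / 2 : ℝ) • r,
        hCconv n (hYC n) (hCmono n (n + 1) (Nat.le_succ n) hr) (by norm_num) (by norm_num)
          (by norm_num), ?_⟩
      have e : n + (d + 1) = n + 1 + d := by ring
      rw [e, hre, hvs, map_add, map_smul, map_smul]
      have e2 : (1 / 2 : ℝ) ^ (n + 1) = (1 / 2 : ℝ) ^ n * (1 / 2) := pow_succ _ _
      rw [e2]
      module
  -- convergence
  have hsummable : Summable (fun k => (1 / 2 : ℝ) ^ (k + 1) • Y k) := by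
    refine Summable.of_norm_bounded (g := fun k => (1 / 2 : ℝ) ^ k) ?_ fun k => ?_
    · exact summable_geometric_of_lt_one (by norm_num) (by norm_num)
    · rw [norm_smul, Real.norm_of_nonneg (by positivity)]
      calc (1 / 2 : ℝ) ^ (k + 1) * ‖Y k‖ ≤ (1 / 2 : ℝ) ^ (k + 1) * 2 :=
            mul_le_mul_of_nonneg_left (hCnorm k _ (hYC k)) (by positivity)
        _ = (1 / 2 : ℝ) ^ k := by rw [pow_succ]; ring
  set z := ∑' k, (1 / 2 : ℝ) ^ (k + 1) • Y k with hz
  have hvsum : ∀ n, v n = J (∑ k ∈ Finset.range n, (1 / 2 : ℝ) ^ (k + 1) • Y k) -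
      (1 - (1 / 2 : ℝ) ^ n) • w := by
    intro n
    induction n with
    | zero => simp [hv0]
    | succ n ih =>
      rw [hvs, ih, Finset.sum_range_succ, map_add, map_smul]
      have e2 : (1 / 2 : ℝ) ^ (n + 1) = (1 / 2 : ℝ) ^ n * (1 / 2) := pow_succ _ _
      rw [e2]
      module
  have hpow : Tendsto (fun n : ℕ => (1 / 2 : ℝ) ^ n) atTop (𝓝 0) :=
    tendsto_pow_atTop_nhds_zero_of_lt_one (by norm_num) (by norm_num)
  have hvlim : Tendsto v atTop (𝓝 (J z - w)) := by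
    have h3 : Tendsto (fun n => J (∑ k ∈ Finset.range n, (1 / 2 : ℝ) ^ (k + 1) • Y k) -
        (1 - (1 / 2 : ℝ) ^ n) • w) atTop (𝓝 (J z - (1 - 0 : ℝ) • w)) :=
      ((J.continuous.tendsto _).comp hsummable.hasSum.tendsto_sum_nat).sub
        ((hpow.const_sub 1).smul_const w)
    rw [sub_zero, one_smul] at h3
    refine h3.congr fun n => (hvsum n).symm
  -- `z` is in the closure of `C 0`
  have hzc : z ∈ closure (C 0) := by
    have h3 : Tendsto (fun n => ∑ k ∈ Finset.range n, (1 / 2 : ℝ) ^ (k + 1) • Y k +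
        (1 / 2 : ℝ) ^ n • Y n) atTop (𝓝 (z + 0)) := by
      refine hsummable.hasSum.tendsto_sum_nat.add ?_
      rw [tendsto_zero_iff_norm_tendsto_zero]
      have h4 : Tendsto (fun n : ℕ => (1 / 2 : ℝ) ^ n * 2) atTop (𝓝 0) := by
        have := hpow.mul_const 2
        rwa [zero_mul] at this
      refine squeeze_zero (fun n => norm_nonneg _) (fun n => ?_) h4
      rw [norm_smul, Real.norm_of_nonneg (by positivity)]
      exact mul_le_mul_of_nonneg_left (hCnorm n _ (hYC n)) (by positivity)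
    rw [add_zero] at h3
    refine mem_closure_of_tendsto h3 (Eventually.of_forall fun n => ?_)
    have h5 : ∀ n : ℕ, ∀ m : ℕ, ∀ y ∈ C m, (∀ k < n, Y (m + k) ∈ C m) →
        ∑ k ∈ Finset.range n, (1 / 2 : ℝ) ^ (k + 1) • Y (m + k) + (1 / 2 : ℝ) ^ n • y ∈ C m := by
      intro n
      induction n with
      | zero => intro m y hy _; simpa using hy
      | succ n ih =>
        intro m y hy hYm
        have h6 := ih m ((1 / 2 : ℝ) • Y (m + n) + (1 / 2 : ℝ) • y)
          (hCconv m (hYm n (Nat.lt_succ_self n)) hy (by norm_num) (by norm_num) (by norm_num))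
          fun k hk => hYm k (Nat.lt_succ_of_lt hk)
        rw [Finset.sum_range_succ]
        convert h6 using 1
        have e2 : (1 / 2 : ℝ) ^ (n + 1) = (1 / 2 : ℝ) ^ n * (1 / 2) := pow_succ _ _
        rw [e2]
        module
    have h6 := h5 n 0 (Y n) (hCmono 0 n (Nat.zero_le n) (hYC n))
      fun k _ => hCmono 0 (0 + k) (Nat.zero_le _) (hYC (0 + k))
    simpa using h6
  set V := J z - w with hV
  have hYb : ∀ n, ‖J (Y n) - w‖ ≤ 2 + ‖w‖ := fun n => by
    refine (norm_sub_le _ _).trans ?_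
    rw [J.norm_map]
    linarith [hCnorm n _ (hYC n)]
  have hsmall : Tendsto (fun n => (1 / 2 : ℝ) ^ n • (J (Y n) - w)) atTop (𝓝 0) := by
    rw [tendsto_zero_iff_norm_tendsto_zero]
    have h3 : Tendsto (fun n : ℕ => (1 / 2 : ℝ) ^ n * (2 + ‖w‖)) atTop (𝓝 0) := by
      have := hpow.mul_const (2 + ‖w‖)
      rwa [zero_mul] at this
    refine squeeze_zero (fun n => norm_nonneg _) (fun n => ?_) h3
    rw [norm_smul, Real.norm_of_nonneg (by positivity)]
    exact mul_le_mul_of_nonneg_left (hYb n) (by positivity)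
  have hlim : Tendsto (fun n => v n + (1 / 2 : ℝ) ^ n • (J (Y n) - w)) atTop (𝓝 V) := by
    have := hvlim.add hsmall
    rwa [add_zero] at this
  -- the norm estimate
  have hnorm : ∀ n, ‖v n + (1 / 2 : ℝ) ^ n • (J (Y n) - w)‖ ≤ ‖V‖ + δ * (1 / 4) ^ (n + 1) := by
    intro n
    refine ge_of_tendsto (hlim.norm.add_const (δ * (1 / 4) ^ (n + 1))) ?_
    filter_upwards [eventually_ge_atTop n] with N hN
    obtain ⟨d, rfl⟩ := Nat.exists_eq_add_of_le hN
    obtain ⟨r, hr, hre⟩ := havg d n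
    rw [hre]
    exact hYmin n r hr
  refine ⟨z, hzc, fun b hb1 hb2 n c hc => ?_⟩
  set e : ℕ → ℝ := fun n => b V - b (v n) with he
  have he0 : e 0 = ‖V‖ := by
    simp only [he, hv0, map_zero, sub_zero]
    exact hb2
  have hes : ∀ n, e n ≤ 2 * e (n + 1) + δ * (1 / 4) ^ (n + 1) := by
    intro n
    have h3 : b (v n + (1 / 2 : ℝ) ^ n • (J (Y n) - w)) ≤ ‖V‖ + δ * (1 / 4) ^ (n + 1) := by
      refine le_trans ?_ (hnorm n)
      refine (le_abs_self _).trans ((b.le_opNorm _).trans ?_)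
      calc _ ≤ 1 * ‖v n + (1 / 2 : ℝ) ^ n • (J (Y n) - w)‖ :=
            mul_le_mul_of_nonneg_right hb1 (norm_nonneg _)
        _ = _ := one_mul _
    have h4 : v n + (1 / 2 : ℝ) ^ n • (J (Y n) - w) = (2 : ℝ) • v (n + 1) - v n := by
      rw [hvs, pow_succ]
      module
    rw [h4, map_sub, map_smul, smul_eq_mul] at h3
    simp only [he]
    rw [← hb2] at h3
    linarith
  have hen : ∀ n, ‖V‖ ≤ 2 ^ n * e n + δ * ∑ j ∈ Finset.range n, (2 : ℝ) ^ j *
      (1 / 4) ^ (j + 1) := by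
    intro n
    induction n with
    | zero => rw [he0]; simp
    | succ n ih =>
      rw [Finset.sum_range_succ, mul_add]
      have h3 := mul_le_mul_of_nonneg_left (hes n) (show (0 : ℝ) ≤ 2 ^ n by positivity)
      have h4 : (2 : ℝ) ^ n * (2 * e (n + 1) + δ * (1 / 4) ^ (n + 1)) =
          2 ^ (n + 1) * e (n + 1) + δ * (2 ^ n * (1 / 4) ^ (n + 1)) := by
        rw [pow_succ]; ring
      rw [h4] at h3
      linarith
  have h4 : (2 : ℝ) ^ n * e n ≤ c - b w := by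
    have h5 : Tendsto (fun N => (2 : ℝ) ^ n * (b (v N + (1 / 2 : ℝ) ^ N • (J (Y N) - w)) - b (v n)))
        atTop (𝓝 ((2 : ℝ) ^ n * e n)) :=
      ((((b.continuous.tendsto _).comp hlim)).sub_const _).const_mul _
    refine le_of_tendsto h5 ?_
    filter_upwards [eventually_ge_atTop n] with N hN
    obtain ⟨d, rfl⟩ := Nat.exists_eq_add_of_le hN
    obtain ⟨r, hr, hre⟩ := havg d n
    rw [hre]
    have h6 := hc r hr
    have h7 : b (v n + (1 / 2 : ℝ) ^ n • (J r - w)) - b (v n) =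
        (1 / 2 : ℝ) ^ n * (b (J r) - b w) := by
      rw [map_add, map_smul, map_sub, smul_eq_mul]
      ring
    have h8 : (2 : ℝ) ^ n * ((1 / 2 : ℝ) ^ n * (b (J r) - b w)) = b (J r) - b w := by
      rw [← mul_assoc, ← mul_pow]
      norm_num
    rw [h7, h8]
    linarith
  have h5 := hen n
  have h6 := mul_le_mul_of_nonneg_left (simons_geom n) hδ0.le
  linarith

/-- Simons-type oscillation lemma. -/
theorem simons_osc {X : Type*} [NormedAddCommGroup X] [NormedSpace ℝ X] [CompleteSpace X]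
    (S : Submodule ℝ (StrongDual ℝ (StrongDual ℝ X)))
    (hS : ∀ φ, φ ∈ S ↔ ∃ f : StrongDual ℝ X, ‖f‖ ≤ 1 ∧ φ f = ‖φ‖) {θ : ℝ} (hθ : 0 < θ)
    (x : ℕ → X) (f : ℕ → StrongDual ℝ X) (hx : ∀ n, ‖x n‖ ≤ 2) (hf : ∀ n, ‖f n‖ ≤ 1)
    (h1 : ∀ m n, m ≤ n → θ ≤ f m (x n)) (h2 : ∀ m n, n < m → f m (x n) = 0) :
    ∃ b : StrongDual ℝ X, ‖b‖ ≤ 1 ∧ ∃ α : ℝ, |α| ≤ 3 ∧
      (∃ᶠ n in Filter.atTop, α + θ / 4 ≤ b (x n)) ∧ (∃ᶠ n in Filter.atTop, b (x n) ≤ α) := by
  set J := NormedSpace.inclusionInDoubleDualLi ℝ (E := X) with hJ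
  have hJS : ∀ y : X, J y ∈ S := by
    intro y
    obtain ⟨g, hg1, hg2⟩ := exists_dual_vector'' ℝ y
    refine (hS _).2 ⟨g, hg1, ?_⟩
    rw [J.norm_map]
    exact hg2
  have hJa : ∀ (y : X) (g : StrongDual ℝ X), J y g = g y := fun y g => rfl
  have hθ2 : θ ≤ 2 := by
    have h3 := h1 0 0 le_rfl
    have h4 : f 0 (x 0) ≤ ‖f 0‖ * ‖x 0‖ := (le_abs_self _).trans ((f 0).le_opNorm _)
    have h5 : ‖f 0‖ * ‖x 0‖ ≤ 1 * 2 := mul_le_mul (hf 0) (hx 0) (norm_nonneg _) zero_le_one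
    linarith
  obtain ⟨w1, hw1n, hw1⟩ := simons_cluster x hx
  obtain ⟨w, hww1, y₀, hy₀, hwy₀⟩ := bishopPhelps w1 (show 0 < θ / 16 by positivity)
  have hwS : w ∈ S := (hS w).2 ⟨y₀, hy₀, hwy₀⟩
  -- the convex hulls
  set C : ℕ → Set X := fun n => convexHull ℝ (x '' Ici n) with hC
  have hCmono : ∀ m n, m ≤ n → C n ⊆ C m := fun m n hmn =>
    convexHull_mono (image_mono (Ici_subset_Ici.2 hmn))
  have hCconv : ∀ n, Convex ℝ (C n) := fun n => convex_convexHull ℝ _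
  have hCne : ∀ n, (C n).Nonempty := fun n =>
    ⟨x n, subset_convexHull ℝ _ ⟨n, mem_Ici.2 le_rfl, rfl⟩⟩
  have hCnorm : ∀ n, ∀ y ∈ C n, ‖y‖ ≤ 2 := by
    intro n y hy
    have h3 : C n ⊆ closedBall 0 2 := by
      refine convexHull_min ?_ (convex_closedBall _ _)
      rintro _ ⟨k, -, rfl⟩
      rw [mem_closedBall_zero_iff]
      exact hx k
    have := h3 hy
    rwa [mem_closedBall_zero_iff] at this
  -- values on the convex hulls
  have hCval : ∀ (b : StrongDual ℝ X) (n : ℕ) (c : ℝ), (∀ k, n ≤ k → b (x k) ≤ c) →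
      ∀ y ∈ C n, b y ≤ c := by
    intro b n c hb y hy
    have h3 : C n ⊆ {y | b y ≤ c} := by
      refine convexHull_min ?_ ?_
      · rintro _ ⟨k, hk, rfl⟩
        exact hb k hk
      · exact convex_halfSpace_le b.toLinearMap.isLinear c
    exact h3 hy
  -- distance from the closure of `C 0` to `w1`
  have hdist : ∀ z ∈ closure (C 0), θ ≤ ‖J z - w1‖ := by
    intro z hz
    refine le_of_forall_pos_le_add fun ε hε => ?_
    obtain ⟨z', hz', hzz'⟩ := Metric.mem_closure_iff.1 hz ε hε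
    -- `f m z' = 0` for large `m`
    have hzero : ∀ y ∈ C 0, ∀ᶠ m in atTop, f m y = 0 := by
      intro y hy
      have h3 : C 0 ⊆ {y | ∀ᶠ m in atTop, f m y = 0} := by
        refine convexHull_min ?_ ?_
        · rintro _ ⟨k, -, rfl⟩
          filter_upwards [eventually_gt_atTop k] with m hm
          exact h2 m k hm
        · intro a ha b hb s t _ _ _
          simp only [mem_ofPred_eq] at ha hb ⊢
          filter_upwards [ha, hb] with m hma hmb
          rw [map_add, map_smul, map_smul, hma, hmb, smul_zero, smul_zero, add_zero]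
      exact h3 hy
    obtain ⟨m, hm⟩ := (hzero z' hz').exists
    have h3 : θ ≤ w1 (f m) := by
      refine ge_of_tendsto (hw1 (f m)) ?_
      have : ∀ᶠ n in (hyperfilter ℕ : Filter ℕ), m ≤ n := by
        refine hyperfilter_le_cofinite ?_
        rw [Nat.cofinite_eq_atTop]
        exact eventually_ge_atTop m
      filter_upwards [this] with n hn
      exact h1 m n hn
    have h4 : |f m (z - z')| ≤ ε := by
      calc |f m (z - z')| ≤ ‖f m‖ * ‖z - z'‖ := (f m).le_opNorm _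
        _ ≤ 1 * ε := by
          apply mul_le_mul (hf m) _ (norm_nonneg _) zero_le_one
          rw [← dist_eq_norm]; exact hzz'.le
        _ = ε := one_mul _
    have h5 : |(J z - w1) (f m)| ≤ ‖J z - w1‖ := by
      calc |(J z - w1) (f m)| ≤ ‖J z - w1‖ * ‖f m‖ := (J z - w1).le_opNorm _
        _ ≤ ‖J z - w1‖ * 1 := mul_le_mul_of_nonneg_left (hf m) (norm_nonneg (J z - w1))
        _ = _ := mul_one _
    have h6 : (J z - w1) (f m) = f m (z - z') - w1 (f m) := by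
      rw [sub_apply, hJa, map_sub, hm, sub_zero]
    rw [h6] at h5
    have h7 := (abs_le.1 h5).1
    have h8 := (abs_le.1 h4).2
    linarith
  obtain ⟨z, hzc, hcore⟩ := simons_core J w C hCmono hCconv hCne hCnorm
    (show 0 < θ / 16 by positivity)
  set V := J z - w with hV
  have hVS : V ∈ S := by
    have h3 := S.add_mem (hJS z) (S.smul_mem (-1 : ℝ) hwS)
    have h4 : V = J z + (-1 : ℝ) • w := by rw [hV]; module
    rw [h4]
    exact h3
  obtain ⟨b, hb1, hb2⟩ := (hS V).1 hVS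
  refine ⟨b, hb1, w1 b + θ / 16, ?_, ?_, ?_⟩
  · have h3 : |w1 b| ≤ 2 := by
      calc |w1 b| ≤ ‖w1‖ * ‖b‖ := w1.le_opNorm _
        _ ≤ 2 * 1 := mul_le_mul hw1n hb1 (norm_nonneg _) (by norm_num)
        _ = 2 := by norm_num
    rw [abs_le] at h3 ⊢
    constructor <;> linarith
  · have hVn : θ - θ / 16 ≤ ‖V‖ := by
      have h3 := hdist z hzc
      have h4 : J z - w1 = V + (w - w1) := by rw [hV]; abel
      rw [h4] at h3
      have h5 := norm_add_le V (w - w1)
      linarith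
    rw [frequently_atTop]
    intro n
    by_contra hcon
    push Not at hcon
    -- all `b (x k)`, `k ≥ n`, are small, hence `b r` is small for `r ∈ C n`
    have h3 : ∀ r ∈ C n, b r ≤ w1 b + θ / 16 + θ / 4 :=
      hCval b n _ fun k hk => (hcon k hk).le
    have h4 := hcore (NormedSpace.inclusionInDoubleDual ℝ (StrongDual ℝ X) b)
      ((NormedSpace.double_dual_bound ℝ (StrongDual ℝ X) b).trans hb1) hb2 n
      (w1 b + θ / 16 + θ / 4) (fun r hr => h3 r hr)
    have h5 : NormedSpace.inclusionInDoubleDual ℝ (StrongDual ℝ X) b w = w b := rfl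
    rw [h5] at h4
    have h7 : |(w - w1) b| ≤ θ / 16 := by
      calc |(w - w1) b| ≤ ‖w - w1‖ * ‖b‖ := (w - w1).le_opNorm _
        _ ≤ θ / 16 * 1 := mul_le_mul hww1 hb1 (norm_nonneg _) (by positivity)
        _ = θ / 16 := mul_one _
    rw [sub_apply] at h7
    have h8 := (abs_le.1 h7).1
    linarith
  · have h3 : ∀ᶠ n in (hyperfilter ℕ : Filter ℕ), b (x n) < w1 b + θ / 16 :=
      (hw1 b).eventually_lt_const (by linarith)
    rw [frequently_atTop]
    intro n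
    have h4 : ∀ᶠ k in (hyperfilter ℕ : Filter ℕ), n ≤ k := by
      refine hyperfilter_le_cofinite ?_
      rw [Nat.cofinite_eq_atTop]
      exact eventually_ge_atTop n
    obtain ⟨k, hk1, hk2⟩ := (h3.and h4).exists
    exact ⟨k, hk2, hk1.le⟩

end Pool.Agent.MP6b3dca
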